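import Mathlib

/-!
Infinite product probability spaces: a lemma on sets related by changes of one coordinate, and the
zero-one law for sets invariant under single coordinate changes.
-/

set_option autoImplicit false

open MeasureTheory Set ProbabilityTheory Filter
open scoped ENNReal symmDiff

namespace Pool.Agent.MP335725

section Core

variable {E : ℕ → Type*} [∀ n, MeasurableSpace (E n)]

/-- changing the `n`-th coordinate by `σ`. -/
def change (n : ℕ) (σ : E n → E n) (ω : ∀ n, E n) : ∀ n, E n := Function.update ω n (σ (ω n))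

theorem change_same (n : ℕ) (σ : E n → E n) (ω : ∀ n, E n) : change n σ ω n = σ (ω n) := by
  simp [change]

theorem change_ne (n : ℕ) (σ : E n → E n) (ω : ∀ n, E n) {m : ℕ} (h : m ≠ n) :
    change n σ ω m = ω m := by
  simp [change, h]

variable (p : ∀ n, Measure (E n)) [∀ n, IsProbabilityMeasure (p n)]

theorem measurePreserving_change (n : ℕ) (σ : E n → E n) (hσ : MeasurePreserving σ (p n) (p n)) :
    MeasurePreserving (change n σ) (Measure.infinitePi p) (Measure.infinitePi p) := by
  classical
  set F : ∀ m, E m → E m := Function.update (fun m => (id : E m → E m)) n σ with hF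
  have hFm : ∀ m, MeasurePreserving (F m) (p m) (p m) := by
    intro m
    by_cases h : m = n
    · subst h; simpa [hF] using hσ
    · rw [hF, Function.update_of_ne h]
      exact MeasurePreserving.id _
  have hc : change n σ = fun ω m => F m (ω m) := by
    funext ω m
    by_cases h : m = n
    · subst h; simp [hF, change]
    · simp [hF, change, h]
  refine ⟨?_, ?_⟩
  · rw [hc]
    exact measurable_pi_lambda _ fun m => (hFm m).measurable.comp (measurable_pi_apply m)
  · rw [hc, Measure.infinitePi_map_pi p (fun m => (hFm m).measurable)]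
    congr 1
    funext m
    exact (hFm m).map_eq

theorem indep_cylinder (s : Finset ℕ) (S : Set (∀ i : s, E i)) (hS : MeasurableSet S) (n : ℕ)
    (hn : n ∉ s) (A : Set (E n)) (hA : MeasurableSet A) :
    Measure.infinitePi p (cylinder s S ∩ {ω | ω n ∈ A}) =
      Measure.infinitePi p (cylinder s S) * p n A := by
  classical
  have h1 : iIndepFun (fun (i : ℕ) (ω : ∀ n, E n) => ω i) (Measure.infinitePi p) :=
    iIndepFun_infinitePi (X := fun _ ω => ω) (fun _ => measurable_id)
  have h2 := h1.indepFun_finset s {n} (by simpa using hn) (fun i => measurable_pi_apply i)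
  set B : Set (∀ i : ({n} : Finset ℕ), E i) := {x | x ⟨n, by simp⟩ ∈ A} with hB
  have hBm : MeasurableSet B := (measurable_pi_apply _) hA
  have h3 := h2.measure_inter_preimage_eq_mul S B hS hBm
  have h4 : Measure.infinitePi p {ω : ∀ n, E n | ω n ∈ A} = p n A :=
    (measurePreserving_eval_infinitePi p n).measure_preimage hA.nullMeasurableSet
  have h5 : (fun (a : ∀ n, E n) (i : ({n} : Finset ℕ)) => a i) ⁻¹' B = {ω : ∀ n, E n | ω n ∈ A} :=
    rfl
  have h6 : (fun (a : ∀ n, E n) (i : s) => a i) ⁻¹' S = cylinder s S := rfl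
  rw [h5, h6, h4] at h3
  exact h3

theorem change_mem_cylinder (s : Finset ℕ) (S : Set (∀ i : s, E i)) (n : ℕ) (hn : n ∉ s)
    (σ : E n → E n) (ω : ∀ n, E n) : change n σ ω ∈ cylinder s S ↔ ω ∈ cylinder s S := by
  rw [mem_cylinder, mem_cylinder]
  have : s.restrict (change n σ ω) = s.restrict ω := by
    funext i
    have : (i : ℕ) ≠ n := fun h => hn (h ▸ i.2)
    simp [Finset.restrict, change, this]
  rw [this]

theorem core (f g : Set (∀ n, E n)) (hf : MeasurableSet f) (hg : MeasurableSet g) (c : ℝ≥0∞)
    (hc : c ≠ 0)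
    (h : ∀ N, ∃ n, N ≤ n ∧ ∃ σ : E n → E n, MeasurePreserving σ (p n) (p n) ∧
      ∃ A : Set (E n), MeasurableSet A ∧ c ≤ p n A ∧
        ∀ ω : ∀ n, E n, ω n ∈ A → (ω ∈ f ↔ change n σ ω ∈ g)) :
    Measure.infinitePi p (f ∆ g) = 0 := by
  classical
  set P := Measure.infinitePi p with hP
  have hdense : P.MeasureDense (measurableCylinders E) :=
    Measure.MeasureDense.of_generateFrom_isSetAlgebra_finite P isSetAlgebra_measurableCylinders
      generateFrom_measurableCylinders.symm
  have key : ∀ ε : ℝ, 0 < ε → c * P (f ∆ g) ≤ ENNReal.ofReal (4 * ε) := by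
    intro ε hε
    obtain ⟨f', hf'm, hf'⟩ := hdense.approx f hf (measure_ne_top _ _) ε hε
    obtain ⟨g', hg'm, hg'⟩ := hdense.approx g hg (measure_ne_top _ _) ε hε
    have htm : f' ∆ g' ∈ measurableCylinders E :=
      (isSetRing_measurableCylinders (α := E)).union_mem
        ((isSetRing_measurableCylinders (α := E)).sdiff_mem hf'm hg'm)
        ((isSetRing_measurableCylinders (α := E)).sdiff_mem hg'm hf'm)
    obtain ⟨s, S, hS, hs⟩ := (mem_measurableCylinders _).1 htm
    obtain ⟨s', S', hS', hs'⟩ := (mem_measurableCylinders _).1 hg'm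
    obtain ⟨n, hn, σ, hσ, A, hA, hcA, hfg⟩ := h ((s ∪ s').sup id + 1)
    have hns : n ∉ s := by
      intro hmem
      have : id n ≤ (s ∪ s').sup id := Finset.le_sup (f := id) (Finset.mem_union_left _ hmem)
      simp only [id] at this
      omega
    have hns' : n ∉ s' := by
      intro hmem
      have : id n ≤ (s ∪ s').sup id := Finset.le_sup (f := id) (Finset.mem_union_right _ hmem)
      simp only [id] at this
      omega
    have hΦ := measurePreserving_change p n σ hσ
    -- main inclusion
    have hinc : (f' ∆ g') ∩ {ω | ω n ∈ A} ⊆ (f ∆ f') ∪ (change n σ) ⁻¹' (g ∆ g') := by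
      rintro ω ⟨hω, hωA⟩
      have h1 := hfg ω hωA
      have h2 : change n σ ω ∈ g' ↔ ω ∈ g' := by
        rw [hs']; exact change_mem_cylinder s' S' n hns' σ ω
      simp only [mem_union, mem_preimage, Set.mem_symmDiff] at hω ⊢
      tauto
    have hle : P ((f' ∆ g') ∩ {ω | ω n ∈ A}) ≤ ENNReal.ofReal ε + ENNReal.ofReal ε := by
      refine (measure_mono hinc).trans ((measure_union_le _ _).trans ?_)
      refine add_le_add hf'.le ?_
      rw [hΦ.measure_preimage]
      · exact hg'.le
      · exact (hg.symmDiff (hdense.measurable _ hg'm)).nullMeasurableSet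
    have hind : P ((f' ∆ g') ∩ {ω | ω n ∈ A}) = P (f' ∆ g') * p n A := by
      rw [hs]; exact indep_cylinder p s S hS n hns A hA
    have hct : c * P (f' ∆ g') ≤ ENNReal.ofReal ε + ENNReal.ofReal ε := by
      rw [mul_comm]
      exact (mul_le_mul_right hcA _).trans (hind ▸ hle)
    have hc1 : c ≤ 1 := hcA.trans prob_le_one
    have htri : P (f ∆ g) ≤ P (f ∆ f') + (P (f' ∆ g') + P (g ∆ g')) := by
      have : f ∆ g ⊆ (f ∆ f') ∪ ((f' ∆ g') ∪ (g ∆ g')) := by
        intro ω hω
        simp only [mem_union, Set.mem_symmDiff] at hω ⊢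
        tauto
      refine (measure_mono this).trans ((measure_union_le _ _).trans ?_)
      exact add_le_add le_rfl (measure_union_le _ _)
    calc c * P (f ∆ g) ≤ c * (P (f ∆ f') + (P (f' ∆ g') + P (g ∆ g'))) :=
          mul_le_mul_right htri _
      _ = c * P (f ∆ f') + (c * P (f' ∆ g') + c * P (g ∆ g')) := by
          rw [mul_add, mul_add]
      _ ≤ 1 * P (f ∆ f') + (c * P (f' ∆ g') + 1 * P (g ∆ g')) := by
          gcongr
      _ ≤ ENNReal.ofReal ε + ((ENNReal.ofReal ε + ENNReal.ofReal ε) + ENNReal.ofReal ε) := by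
          rw [one_mul, one_mul]
          exact add_le_add hf'.le (add_le_add hct hg'.le)
      _ = ENNReal.ofReal (4 * ε) := by
          rw [← ENNReal.ofReal_add hε.le hε.le, ← ENNReal.ofReal_add (by positivity) hε.le,
            ← ENNReal.ofReal_add hε.le (by positivity)]
          congr 1
          ring
  have hzero : c * P (f ∆ g) = 0 := by
    by_contra hne
    have hfin : c * P (f ∆ g) ≠ ∞ := by
      have := key 1 one_pos
      exact ne_top_of_le_ne_top ENNReal.ofReal_ne_top this
    have hpos : 0 < (c * P (f ∆ g)).toReal := ENNReal.toReal_pos hne hfin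
    have := key ((c * P (f ∆ g)).toReal / 8) (by positivity)
    have h2 : c * P (f ∆ g) ≤ ENNReal.ofReal ((c * P (f ∆ g)).toReal / 2) := by
      refine this.trans (ENNReal.ofReal_le_ofReal ?_)
      linarith
    have h3 := (ENNReal.le_ofReal_iff_toReal_le hfin (by positivity)).1 h2
    linarith
  exact (mul_eq_zero.1 hzero).resolve_left hc

end Core

section ZeroOne

variable {E : ℕ → Type*} [∀ n, MeasurableSpace (E n)] (p : ∀ n, Measure (E n))
  [∀ n, IsProbabilityMeasure (p n)]

theorem zero_one (W : Set (∀ n, E n)) (hW : MeasurableSet W)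
    (hinv : ∀ (n : ℕ) (x : E n) (ω : ∀ n, E n), Function.update ω n x ∈ W ↔ ω ∈ W) :
    Measure.infinitePi p W = 0 ∨ Measure.infinitePi p W = 1 := by
  classical
  have hne : ∀ n, Nonempty (E n) := fun n => nonempty_of_isProbabilityMeasure (p n)
  let x0 : ∀ n, E n := fun n => (hne n).some
  let Φ : ℕ → (∀ n, E n) → (∀ n, E n) := fun N ω j => if j < N then x0 j else ω j
  have hΦ : ∀ N ω, Φ N ω ∈ W ↔ ω ∈ W := by
    intro N
    induction N with
    | zero =>
      intro ω
      have : Φ 0 ω = ω := by funext j; simp [Φ]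
      rw [this]
    | succ N ih =>
      intro ω
      have : Φ (N + 1) ω = Function.update (Φ N ω) N (x0 N) := by
        funext j
        by_cases hj : j = N
        · subst hj; simp [Φ]
        · rw [Function.update_of_ne hj]
          simp only [Φ]
          have : j < N + 1 ↔ j < N := by omega
          simp [this]
      rw [this, hinv, ih]
  let s : ℕ → MeasurableSpace (∀ n, E n) := fun n =>
    MeasurableSpace.comap (fun ω : ∀ n, E n => ω n) inferInstance
  have hle : ∀ n, s n ≤ MeasurableSpace.pi := fun n => (measurable_pi_apply n).comap_le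
  have hind : iIndep s (Measure.infinitePi p) :=
    iIndepFun_infinitePi (X := fun _ ω => ω) (fun _ => measurable_id)
  refine measure_zero_or_one_of_measurableSet_limsup_atTop hle hind ?_
  rw [Filter.limsup_eq_iInf_iSup_of_nat, MeasurableSpace.measurableSet_iInf]
  intro N
  have hpre : Φ N ⁻¹' W = W := by ext ω; exact hΦ N ω
  rw [← hpre]
  have hmeas : @Measurable _ _ (⨆ i, ⨆ (_ : N ≤ i), s i) MeasurableSpace.pi (Φ N) := by
    refine @measurable_pi_lambda _ _ _ (⨆ i, ⨆ (_ : N ≤ i), s i) _ _ ?_
    intro j
    by_cases hj : j < N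
    · simp only [Φ, hj, if_true]
      exact @measurable_const _ _ _ (⨆ i, ⨆ (_ : N ≤ i), s i) _
    · simp only [Φ, hj, if_false]
      have h1 : s j ≤ ⨆ i, ⨆ (_ : N ≤ i), s i := le_iSup₂_of_le j (not_lt.1 hj) le_rfl
      exact Measurable.mono (comap_measurable _) h1 le_rfl
  exact hmeas hW

end ZeroOne

end Pool.Agent.MP335725
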