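import Mathlib

/-!
The skew product space `(∏ C n) × ℤ` with the action of the finitely supported translations.
-/

set_option autoImplicit false

open MeasureTheory Set Function
open scoped ENNReal

namespace Pool.Agent.MP335725

/-- The uniform probability measure on a finite type. -/
noncomputable def unif (α : Type) [Fintype α] [MeasurableSpace α] : Measure α :=
  (Fintype.card α : ℝ≥0∞)⁻¹ • Measure.count

section Unif

variable {α : Type} [Fintype α] [MeasurableSpace α] [MeasurableSingletonClass α]

theorem unif_finset (s : Finset α) : unif α s = (s.card : ℝ≥0∞) / Fintype.card α := by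
  rw [unif, Measure.smul_apply, Measure.count_apply_finset, smul_eq_mul, mul_comm,
    div_eq_mul_inv]

instance [Nonempty α] : IsProbabilityMeasure (unif α) := ⟨by
  have h := unif_finset (Finset.univ : Finset α)
  rw [Finset.coe_univ] at h
  rw [h, Finset.card_univ, ENNReal.div_self]
  · simp
  · simp⟩

theorem map_count_perm {β : Type} [MeasurableSpace β] (e : β ≃ᵐ β) :
    (Measure.count : Measure β).map e = Measure.count := by
  ext s hs
  rw [Measure.map_apply e.measurable hs, Measure.count_apply (e.measurable hs),
    Measure.count_apply hs]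
  congr 1
  have h2 : e ⁻¹' s = e.symm '' s := (e.toEquiv.image_symm_eq_preimage s).symm
  rw [h2]
  exact (e.symm.injective.encard_image s)

theorem measurePreserving_unif (e : Equiv.Perm α) : MeasurePreserving e (unif α) (unif α) := by
  refine ⟨measurable_of_countable _, ?_⟩
  rw [unif, Measure.map_smul]
  congr 1
  ext s hs
  rw [Measure.map_apply (measurable_of_countable _) hs,
    Measure.count_apply ((measurable_of_countable e) hs), Measure.count_apply hs]
  congr 1
  have h2 : e ⁻¹' s = e.symm '' s := (e.image_symm_eq_preimage s).symm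
  rw [h2]
  exact e.symm.injective.encard_image s

end Unif

/-- ranking of the integers: `0` first, then `1`, then the others. -/
def rank (m : ℤ) : ℕ := (4 * m - 1).natAbs

theorem rank_inj {m m' : ℤ} (h : rank m = rank m') : m = m' := by
  unfold rank at h
  omega

section Up

variable {C : ℕ → Type}

/-- The upstairs space. -/
def Up (_pos : ∀ n, C n → ℤ) : Type := (∀ n, C n) × ℤ

variable (pos : ∀ n, C n → ℤ)

/-- constructor -/
def mkUp (y : ∀ n, C n) (m : ℤ) : Up pos := (show (∀ n, C n) × ℤ from (y, m))

variable {pos} in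
/-- first coordinate -/
def Up.y (z : Up pos) : ∀ n, C n := (show (∀ n, C n) × ℤ from z).1

variable {pos} in
/-- second coordinate -/
def Up.m (z : Up pos) : ℤ := (show (∀ n, C n) × ℤ from z).2

@[simp] theorem mkUp_y (y : ∀ n, C n) (m : ℤ) : (mkUp pos y m).y = y := rfl
@[simp] theorem mkUp_m (y : ∀ n, C n) (m : ℤ) : (mkUp pos y m).m = m := rfl
@[simp] theorem mkUp_eta (z : Up pos) : mkUp pos z.y z.m = z := rfl

variable {pos} in
theorem Up.ext' {z z' : Up pos} (h1 : z.y = z'.y) (h2 : z.m = z'.m) : z = z' := by
  rw [← mkUp_eta pos z, ← mkUp_eta pos z', h1, h2]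

instance [∀ n, MeasurableSpace (C n)] : MeasurableSpace (Up pos) :=
  inferInstanceAs (MeasurableSpace ((∀ n, C n) × ℤ))

instance [∀ n, MeasurableSpace (C n)] [∀ n, StandardBorelSpace (C n)] :
    StandardBorelSpace (Up pos) :=
  inferInstanceAs (StandardBorelSpace ((∀ n, C n) × ℤ))

theorem measurable_y [∀ n, MeasurableSpace (C n)] : Measurable (fun z : Up pos => z.y) :=
  (measurable_fst : Measurable (fun z : (∀ n, C n) × ℤ => z.1))

theorem measurable_m [∀ n, MeasurableSpace (C n)] : Measurable (fun z : Up pos => z.m) :=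
  (measurable_snd : Measurable (fun z : (∀ n, C n) × ℤ => z.2))

theorem measurable_mkUp [∀ n, MeasurableSpace (C n)] :
    Measurable (fun z : (∀ n, C n) × ℤ => mkUp pos z.1 z.2) :=
  (measurable_id : Measurable (fun z : (∀ n, C n) × ℤ => z))

section Action

variable [∀ n, AddCommGroup (C n)]

/-- translation -/
def trans (g : Π₀ n, C n) (y : ∀ n, C n) : ∀ n, C n := fun n => g n + y n

/-- The cocycle. -/
noncomputable def coc (g : Π₀ n, C n) (y : ∀ n, C n) : ℤ :=
  ∑ᶠ n, (pos n (y n) - pos n (g n + y n))

theorem coc_support (g : Π₀ n, C n) (y : ∀ n, C n) :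
    (Function.support fun n => pos n (y n) - pos n (g n + y n)) ⊆ {n | g n ≠ 0} := by
  intro n hn
  change g n ≠ 0
  intro hg
  apply hn
  simp [hg]

theorem coc_finite (g : Π₀ n, C n) (y : ∀ n, C n) :
    (Function.support fun n => pos n (y n) - pos n (g n + y n)).Finite :=
  (DFinsupp.finite_support g).subset (coc_support pos g y)

theorem coc_zero (y : ∀ n, C n) : coc pos 0 y = 0 := by
  simp [coc]

theorem trans_zero (y : ∀ n, C n) : trans (0 : Π₀ n, C n) y = y := by
  funext n; simp [trans]

theorem trans_add (g h : Π₀ n, C n) (y : ∀ n, C n) : trans (g + h) y = trans g (trans h y) := by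
  funext n; simp [trans, add_assoc]

theorem coc_add (g h : Π₀ n, C n) (y : ∀ n, C n) :
    coc pos (g + h) y = coc pos h y + coc pos g (trans h y) := by
  unfold coc
  rw [← finsum_add_distrib (coc_finite pos h y) (coc_finite pos g (trans h y))]
  congr 1
  funext n
  simp [trans, add_assoc]

noncomputable instance : AddAction (Π₀ n, C n) (Up pos) where
  vadd g z := mkUp pos (trans g z.y) (z.m + coc pos g z.y)
  zero_vadd z := by
    change mkUp pos (trans 0 z.y) (z.m + coc pos 0 z.y) = z
    rw [trans_zero, coc_zero, add_zero]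
    rfl
  add_vadd g h z := by
    change mkUp pos (trans (g + h) z.y) (z.m + coc pos (g + h) z.y) =
      mkUp pos (trans g (trans h z.y)) ((z.m + coc pos h z.y) + coc pos g (trans h z.y))
    rw [trans_add, coc_add, add_assoc]

theorem vadd_def (g : Π₀ n, C n) (z : Up pos) :
    g +ᵥ z = mkUp pos (trans g z.y) (z.m + coc pos g z.y) := rfl

theorem vadd_y (g : Π₀ n, C n) (z : Up pos) : (g +ᵥ z).y = trans g z.y := rfl

theorem vadd_m (g : Π₀ n, C n) (z : Up pos) : (g +ᵥ z).m = z.m + coc pos g z.y := rfl

end Action

section Meas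

variable [∀ n, AddCommGroup (C n)] [∀ n, Fintype (C n)] [∀ n, MeasurableSpace (C n)]
  [∀ n, MeasurableSingletonClass (C n)]

omit [∀ n, AddCommGroup (C n)] [∀ n, Fintype (C n)] [∀ n, MeasurableSpace (C n)]
  [∀ n, MeasurableSingletonClass (C n)] in
theorem coc_eq_sum [∀ n, AddCommGroup (C n)] (g : Π₀ n, C n) (y : ∀ n, C n) :
    coc pos g y = ∑ n ∈ (DFinsupp.finite_support g).toFinset,
      (pos n (y n) - pos n (g n + y n)) := by
  unfold coc
  refine finsum_eq_sum_of_support_subset _ ?_
  rw [Set.Finite.coe_toFinset]
  exact coc_support pos g y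

theorem measurable_trans (g : Π₀ n, C n) : Measurable (trans g) :=
  measurable_pi_lambda _ fun n =>
    (measurable_of_countable (fun x : C n => g n + x)).comp (measurable_pi_apply n)

theorem measurable_coc (g : Π₀ n, C n) : Measurable (coc pos g) := by
  have : coc pos g = fun y => ∑ n ∈ (DFinsupp.finite_support g).toFinset,
      (pos n (y n) - pos n (g n + y n)) := by
    funext y; exact coc_eq_sum pos g y
  rw [this]
  refine Finset.measurable_fun_sum _ fun n _ => ?_
  exact (measurable_of_countable (fun x : C n => pos n x - pos n (g n + x))).comp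
    (measurable_pi_apply n)

/-- product of uniform measures -/
noncomputable def nu (C : ℕ → Type) [∀ n, Fintype (C n)] [∀ n, MeasurableSpace (C n)] :
    Measure (∀ n, C n) := Measure.infinitePi fun n => unif (C n)

omit [∀ n, AddCommGroup (C n)] in
instance instProbNu [∀ n, Nonempty (C n)] : IsProbabilityMeasure (nu C) := by
  unfold nu; infer_instance

/-- upstairs measure -/
noncomputable def lam : Measure (Up pos) :=
  (show Measure ((∀ n, C n) × ℤ) from (nu C).prod Measure.count)

omit [∀ n, AddCommGroup (C n)] in
instance instSigmaLam [∀ n, Nonempty (C n)] : SigmaFinite (lam pos) := by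
  change SigmaFinite ((nu C).prod (Measure.count : Measure ℤ))
  infer_instance

theorem measurePreserving_trans (g : Π₀ n, C n) : MeasurePreserving (trans g) (nu C) (nu C) := by
  refine ⟨measurable_trans g, ?_⟩
  unfold nu trans
  have h : ∀ n, MeasurePreserving (fun x : C n => g n + x) (unif (C n)) (unif (C n)) :=
    fun n => measurePreserving_unif (Equiv.addLeft (g n))
  rw [Measure.infinitePi_map_pi _ (fun n => (h n).measurable)]
  congr 1
  funext n
  exact (h n).map_eq

theorem measurePreserving_vadd' (g : Π₀ n, C n) :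
    MeasurePreserving (fun z : Up pos => g +ᵥ z) (lam pos) (lam pos) := by
  change MeasurePreserving (fun z : (∀ n, C n) × ℤ => (trans g z.1, z.2 + coc pos g z.1))
    ((nu C).prod Measure.count) ((nu C).prod Measure.count)
  refine (measurePreserving_trans g).skew_product (g := fun y m => m + coc pos g y) ?_ ?_
  · exact measurable_snd.add ((measurable_coc pos g).comp measurable_fst)
  · refine Filter.Eventually.of_forall fun y => ?_
    exact (map_count_perm (MeasurableEquiv.addRight (coc pos g y)))

instance : MeasurableConstVAdd (Π₀ n, C n) (Up pos) :=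
  ⟨fun g => (measurePreserving_vadd' pos g).measurable⟩

instance : VAddInvariantMeasure (Π₀ n, C n) (Up pos) (lam pos) :=
  ⟨fun g _ hs => (measurePreserving_vadd' pos g).measure_preimage hs.nullMeasurableSet⟩

/-- the shift -/
def tau : Up pos ≃ᵐ Up pos :=
  (show ((∀ n, C n) × ℤ) ≃ᵐ ((∀ n, C n) × ℤ) from
    (MeasurableEquiv.refl (∀ n, C n)).prodCongr (MeasurableEquiv.addRight (1 : ℤ)))

omit [∀ n, AddCommGroup (C n)] [∀ n, Fintype (C n)] [∀ n, MeasurableSingletonClass (C n)]

theorem tau_apply (z : Up pos) : tau pos z = mkUp pos z.y (z.m + 1) := rfl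

theorem tau_symm_apply (z : Up pos) : (tau pos).symm z = mkUp pos z.y (z.m - 1) := by
  apply (tau pos).injective
  rw [MeasurableEquiv.apply_symm_apply, tau_apply]
  exact Up.ext' rfl (by simp)

theorem tau_vadd [∀ n, AddCommGroup (C n)] (g : Π₀ n, C n) (z : Up pos) :
    tau pos (g +ᵥ z) = g +ᵥ tau pos z := by
  rw [tau_apply, vadd_def, vadd_def, tau_apply]
  exact Up.ext' rfl (by simp only [mkUp_m, mkUp_y]; ring)

theorem measurePreserving_tau [∀ n, Fintype (C n)] [∀ n, MeasurableSingletonClass (C n)]
    [∀ n, Nonempty (C n)] :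
    MeasurePreserving (tau pos) (lam pos) (lam pos) := by
  change MeasurePreserving (fun z : (∀ n, C n) × ℤ => (id z.1, z.2 + 1))
    ((nu C).prod Measure.count) ((nu C).prod Measure.count)
  exact (MeasurePreserving.id _).prod
    ⟨(MeasurableEquiv.addRight (1:ℤ)).measurable, map_count_perm (MeasurableEquiv.addRight (1:ℤ))⟩

end Meas

end Up

end Pool.Agent.MP335725
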