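import Mathlib
import Pool.Agent.Lib.MP_335725_an.Upstairs

/-!
Exchanging the order of the finite and the infinite product.
-/

set_option autoImplicit false

open MeasureTheory Set Function
open scoped ENNReal

namespace Pool.Agent.MP335725

theorem pi_unif {α : Type} [Fintype α] [MeasurableSpace α] [MeasurableSingletonClass α]
    [Nonempty α] (k : ℕ) : (Measure.pi fun _ : Fin k => unif α) = unif (Fin k → α) := by
  classical
  refine Measure.ext_of_singleton fun b => ?_
  have h1 := unif_finset ({b} : Finset (Fin k → α))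
  rw [Finset.coe_singleton] at h1
  have h2 : ∀ a : α, unif α {a} = (Fintype.card α : ℝ≥0∞)⁻¹ := by
    intro a
    have := unif_finset ({a} : Finset α)
    simpa using this
  rw [h1, Measure.pi_singleton]
  simp only [h2, Finset.prod_const, Finset.card_univ, Fintype.card_fin, Finset.card_singleton,
    Nat.cast_one, Fintype.card_fun, Nat.cast_pow, one_div]
  rw [ENNReal.inv_pow]

variable {C : ℕ → Type} [∀ n, Fintype (C n)] [∀ n, MeasurableSpace (C n)]
  [∀ n, MeasurableSingletonClass (C n)] [∀ n, Nonempty (C n)]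

theorem measurePreserving_swap (k : ℕ) :
    MeasurePreserving (fun (ω : ∀ n, Fin k → C n) (i : Fin k) (n : ℕ) => ω n i)
      (Measure.infinitePi fun n => unif (Fin k → C n)) (Measure.pi fun _ : Fin k => nu C) := by
  have h1 := Measure.infinitePi_map_piCurry_symm (X := fun (n : ℕ) (_ : Fin k) => C n)
    (fun n _ => unif (C n))
  let e : (Σ _ : Fin k, ℕ) ≃ (Σ _ : ℕ, Fin k) :=
    ⟨fun a => ⟨a.2, a.1⟩, fun a => ⟨a.2, a.1⟩, fun _ => rfl, fun _ => rfl⟩
  have h2 := Measure.infinitePi_map_piCongrLeft (X := fun q : Σ _ : ℕ, Fin k => C q.1)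
    (μ := fun q => unif (C q.1)) e
  have h3 := Measure.infinitePi_map_piCurry (X := fun (_ : Fin k) (n : ℕ) => C n)
    (fun _ n => unif (C n))
  have m1 : MeasurePreserving (MeasurableEquiv.piCurry (fun (n : ℕ) (_ : Fin k) => C n)).symm
      (Measure.infinitePi fun n => Measure.infinitePi fun _ : Fin k => unif (C n))
      (Measure.infinitePi fun q : (Σ _ : ℕ, Fin k) => unif (C q.1)) := ⟨by fun_prop, h1⟩
  have m2 : MeasurePreserving
      (MeasurableEquiv.piCongrLeft (fun q : Σ _ : ℕ, Fin k => C q.1) e)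
      (Measure.infinitePi fun a : (Σ _ : Fin k, ℕ) => unif (C (e a).1))
      (Measure.infinitePi fun q : (Σ _ : ℕ, Fin k) => unif (C q.1)) := ⟨by fun_prop, h2⟩
  have m3 : MeasurePreserving (MeasurableEquiv.piCurry (fun (_ : Fin k) (n : ℕ) => C n))
      (Measure.infinitePi fun a : (Σ _ : Fin k, ℕ) => unif (C a.2))
      (Measure.infinitePi fun _ : Fin k => Measure.infinitePi fun n : ℕ => unif (C n)) :=
    ⟨by fun_prop, h3⟩
  have m4 := m3.comp ((m2.symm (MeasurableEquiv.piCongrLeft
    (fun q : Σ _ : ℕ, Fin k => C q.1) e)).comp m1)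
  have e1 : (fun n => Measure.infinitePi fun _ : Fin k => unif (C n)) =
      fun n => unif (Fin k → C n) := by
    funext n
    rw [Measure.infinitePi_eq_pi, pi_unif]
  have e2 : (Measure.infinitePi fun _ : Fin k => Measure.infinitePi fun n : ℕ => unif (C n)) =
      Measure.pi fun _ : Fin k => nu C := by
    rw [Measure.infinitePi_eq_pi]
    rfl
  rw [e1, e2] at m4
  exact m4

end Pool.Agent.MP335725
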