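import Mathlib
import Pool.Agent.Lib.MP_335725_an.Product
import Pool.Agent.Lib.MP_335725_an.Swap

/-!
Sets in the `k`-th power of the upstairs space which are invariant under all the translations in
every coordinate and under the diagonal shift are null or conull.
-/

set_option autoImplicit false

open MeasureTheory Set Function
open scoped ENNReal symmDiff

namespace Pool.Agent.MP335725

variable {C : ℕ → Type} [∀ n, Fintype (C n)]

/-- The combinatorial hypothesis giving ergodicity of the powers. -/
def HypA (pos : ∀ n, C n → ℤ) : Prop :=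
  ∀ (k : ℕ) (i : Fin k), ∃ c : ℝ≥0∞, c ≠ 0 ∧ ∀ N : ℕ, ∃ n, N ≤ n ∧
    ∃ σ : Equiv.Perm (Fin k → C n), ∃ A : Finset (Fin k → C n),
      c ≤ (A.card : ℝ≥0∞) / (Fintype.card (Fin k → C n)) ∧
      ∀ b ∈ A, ∃ s : ℤ, ∀ j, pos n (σ b j) = pos n (b j) + s - (if j = i then 1 else 0)

variable [∀ n, AddCommGroup (C n)] {pos : ∀ n, C n → ℤ}

omit [∀ n, Fintype (C n)] in
theorem coc_single [∀ n, DecidableEq (C n)] (n : ℕ) (x : C n) (y : ∀ n, C n) :
    coc pos (DFinsupp.single n x) y = pos n (y n) - pos n (x + y n) := by
  unfold coc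
  rw [finsum_eq_single _ n]
  · simp
  · intro m hm
    rw [DFinsupp.single_eq_of_ne hm]
    simp

omit [∀ n, Fintype (C n)] in
theorem trans_single (n : ℕ) (x : C n) (y : ∀ n, C n) :
    trans (DFinsupp.single n x) y = Function.update y n (x + y n) := by
  funext m
  by_cases h : m = n
  · subst h; simp [trans]
  · simp [trans, h, DFinsupp.single_eq_of_ne h]

variable [∀ n, MeasurableSpace (C n)] [∀ n, MeasurableSingletonClass (C n)]

section

variable {k : ℕ} (V : Set (Fin k → Up pos))

/-- The slices. -/
def slice (m : Fin k → ℤ) : Set (∀ n, Fin k → C n) :=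
  {ω | (fun i => mkUp pos (fun n => ω n i) (m i)) ∈ V}

omit [∀ n, Fintype (C n)] [∀ n, AddCommGroup (C n)] [∀ n, MeasurableSingletonClass (C n)] in
theorem measurableSet_slice (hV : MeasurableSet V) (m : Fin k → ℤ) :
    MeasurableSet (slice V m) := by
  have : Measurable fun ω : (∀ n, Fin k → C n) => fun i => mkUp pos (fun n => ω n i) (m i) := by
    refine measurable_pi_lambda _ fun i => ?_
    refine (measurable_mkUp pos).comp ((measurable_pi_lambda _ fun n => ?_).prodMk
      measurable_const)
    exact (measurable_pi_apply i).comp (measurable_pi_apply n)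
  exact this hV

variable (hG : ∀ (g : Fin k → Π₀ n, C n) (z : Fin k → Up pos), (fun i => g i +ᵥ z i) ∈ V ↔ z ∈ V)
  (hT : ∀ z : Fin k → Up pos, (fun i => mkUp pos (z i).y ((z i).m + 1)) ∈ V ↔ z ∈ V)

omit [∀ n, Fintype (C n)] [∀ n, AddCommGroup (C n)] [∀ n, MeasurableSpace (C n)]
  [∀ n, MeasurableSingletonClass (C n)] in
include hT in
theorem shift_int (t : ℤ) : ∀ z : Fin k → Up pos,
    (fun i => mkUp pos (z i).y ((z i).m + t)) ∈ V ↔ z ∈ V := by
  induction t using Int.induction_on with
  | zero => intro z; simp
  | succ t ih =>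
    intro z
    have h1 := ih z
    have h2 := hT (fun i => mkUp pos (z i).y ((z i).m + (t : ℤ)))
    simp only [mkUp_y, mkUp_m] at h2
    rw [← h1, ← h2]
    simp only [add_assoc]
  | pred t ih =>
    intro z
    have h1 := ih z
    have h2 := hT (fun i => mkUp pos (z i).y ((z i).m + (-(t : ℤ) - 1)))
    simp only [mkUp_y, mkUp_m] at h2
    rw [← h1, ← h2]
    have : ∀ i, (z i).m + (-(t : ℤ) - 1) + 1 = (z i).m + -(t : ℤ) := fun i => by ring
    simp only [this]

omit [∀ n, Fintype (C n)] [∀ n, MeasurableSpace (C n)] [∀ n, MeasurableSingletonClass (C n)] in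
include hG in
/-- change of one coordinate. -/
theorem slice_update (n : ℕ) (x : Fin k → C n) (ω : ∀ n, Fin k → C n) (m : Fin k → ℤ) :
    Function.update ω n x ∈ slice V (fun j => m j + (pos n (ω n j) - pos n (x j))) ↔
      ω ∈ slice V m := by
  classical
  have h := hG (fun j => DFinsupp.single n (x j - ω n j))
    (fun j => mkUp pos (fun n => ω n j) (m j))
  unfold slice
  change _ ∈ V ↔ _ ∈ V
  rw [← h]
  have : (fun i => mkUp pos (fun n' => (Function.update ω n x) n' i)
      (m i + (pos n (ω n i) - pos n (x i)))) =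
      fun i => (DFinsupp.single n (x i - ω n i) : Π₀ n, C n) +ᵥ
        mkUp pos (fun n => ω n i) (m i) := by
    funext i
    rw [vadd_def]
    refine Up.ext' ?_ ?_
    · simp only [mkUp_y]
      rw [trans_single]
      funext n'
      by_cases h' : n' = n
      · subst h'; simp
      · simp [h']
    · simp only [mkUp_m, mkUp_y]
      rw [coc_single]
      simp
  rw [this]

variable [∀ n, Nonempty (C n)]

include hG hT in
theorem slice_adj (hA : HypA pos) (hV : MeasurableSet V) (i : Fin k) (m : Fin k → ℤ) :
    (Measure.infinitePi fun n => unif (Fin k → C n))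
      (slice V m ∆ slice V (m + Pi.single i 1)) = 0 := by
  classical
  obtain ⟨c, hc, h⟩ := hA k i
  refine core (E := fun n => Fin k → C n) (fun n => unif (Fin k → C n)) _ _
    (measurableSet_slice V hV m) (measurableSet_slice V hV _) c hc ?_
  intro N
  obtain ⟨n, hn, σ, A, hAc, hs⟩ := h N
  refine ⟨n, hn, σ, measurePreserving_unif σ, (A : Set (Fin k → C n)), A.measurableSet, ?_, ?_⟩
  · rw [unif_finset]; exact hAc
  · intro ω hω
    obtain ⟨s, hs⟩ := hs (ω n) hω
    have h1 := slice_update V hG n (σ (ω n)) ω m
    have h2 := shift_int V hT s (fun j => mkUp pos (fun n' => (change n σ ω) n' j)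
      (m j + (pos n (ω n j) - pos n (σ (ω n) j))))
    simp only [mkUp_y, mkUp_m] at h2
    rw [← h1]
    change (fun j => mkUp pos (fun n' => (change n σ ω) n' j)
      (m j + (pos n (ω n j) - pos n (σ (ω n) j)))) ∈ V ↔ _ ∈ V
    rw [← h2]
    have h3 : ∀ j, m j + (pos n (ω n j) - pos n (σ (ω n) j)) + s =
        (m + (Pi.single i (1 : ℤ) : Fin k → ℤ)) j := by
      intro j
      rw [hs j, Pi.add_apply]
      by_cases hj : j = i
      · subst hj
        simp only [if_true, Pi.single_eq_same]
        ring
      · rw [Pi.single_eq_of_ne hj, if_neg hj]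
        ring
    simp only [h3]

/-- The group of periods. -/
def periods : AddSubgroup (Fin k → ℤ) where
  carrier := {v | ∀ m, (Measure.infinitePi fun n => unif (Fin k → C n))
      (slice V m ∆ slice V (m + v)) = 0}
  zero_mem' := by
    intro m
    simp
  add_mem' := by
    intro v w hv hw m
    have h1 := hv m
    have h2 := hw (m + v)
    have : slice V m ∆ slice V (m + (v + w)) ⊆
        (slice V m ∆ slice V (m + v)) ∪ (slice V (m + v) ∆ slice V (m + v + w)) := by
      rw [add_assoc]
      intro ω hω
      simp only [mem_union, Set.mem_symmDiff] at hω ⊢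
      tauto
    exact measure_mono_null this (measure_union_null h1 h2)
  neg_mem' := by
    intro v hv m
    have h1 := hv (m + -v)
    rw [neg_add_cancel_right, symmDiff_comm] at h1
    exact h1

include hG hT in
theorem slice_all (hA : HypA pos) (hV : MeasurableSet V) (m m' : Fin k → ℤ) :
    (Measure.infinitePi fun n => unif (Fin k → C n)) (slice V m ∆ slice V m') = 0 := by
  classical
  have key : ∀ v : Fin k → ℤ, v ∈ periods V := by
    intro v
    have hv : v = ∑ i, v i • (Pi.single i (1 : ℤ) : Fin k → ℤ) := by
      funext j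
      simp [Finset.sum_apply, Pi.single_apply]
    rw [hv]
    refine AddSubgroup.sum_mem _ fun i _ => AddSubgroup.zsmul_mem _ ?_ _
    intro m
    exact slice_adj V hG hT hA hV i m
  have := key (m' - m) m
  rwa [add_sub_cancel] at this

include hG hT in
theorem slices_dichotomy (hA : HypA pos) (hV : MeasurableSet V) :
    (∀ m, (Measure.infinitePi fun n => unif (Fin k → C n)) (slice V m) = 0) ∨
    (∀ m, (Measure.infinitePi fun n => unif (Fin k → C n)) (slice V m)ᶜ = 0) := by
  classical
  set W : Set (∀ n, Fin k → C n) := ⋂ m, slice V m with hW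
  have hWm : MeasurableSet W := MeasurableSet.iInter fun m => measurableSet_slice V hV m
  have hinv : ∀ (n : ℕ) (x : Fin k → C n) (ω : ∀ n, Fin k → C n),
      Function.update ω n x ∈ W ↔ ω ∈ W := by
    intro n x ω
    simp only [hW, mem_iInter]
    constructor
    · intro h m
      exact (slice_update V hG n x ω m).1 (h _)
    · intro h m
      have h1 := (slice_update V hG n x ω
        (fun j => m j - (pos n (ω n j) - pos n (x j)))).2 (h _)
      simpa using h1
  have hae : ∀ m, (Measure.infinitePi fun n => unif (Fin k → C n)) (slice V m \ W) = 0 := by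
    intro m
    have : slice V m \ W = ⋃ m', (slice V m \ slice V m') := by
      rw [hW, sdiff_iInter]
    rw [this]
    refine measure_iUnion_null fun m' => ?_
    refine measure_mono_null ?_ (slice_all V hG hT hA hV m m')
    intro ω hω
    exact Or.inl hω
  rcases zero_one (fun n => unif (Fin k → C n)) W hWm hinv with h0 | h1
  · left
    intro m
    have : slice V m ⊆ W ∪ (slice V m \ W) := by
      intro ω hω
      by_cases h : ω ∈ W
      · exact Or.inl h
      · exact Or.inr ⟨hω, h⟩
    exact measure_mono_null this (measure_union_null h0 (hae m))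
  · right
    intro m
    have hc : (Measure.infinitePi fun n => unif (Fin k → C n)) Wᶜ = 0 := by
      rw [prob_compl_eq_zero_iff hWm]; exact h1
    refine measure_mono_null ?_ hc
    rw [compl_subset_compl]
    exact iInter_subset _ m

omit [∀ n, AddCommGroup (C n)] in
theorem pi_lam_null (hV : MeasurableSet V)
    (h : ∀ m, (Measure.infinitePi fun n => unif (Fin k → C n)) (slice V m) = 0) :
    Measure.pi (fun _ : Fin k => lam pos) V = 0 := by
  change Measure.pi (fun _ : Fin k => (nu C).prod (Measure.count : Measure ℤ)) V = 0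
  have hmp := measurePreserving_arrowProdEquivProdArrow (∀ n, C n) ℤ (Fin k)
    (fun _ => nu C) (fun _ => Measure.count)
  have hmeas : Measurable fun q : (Fin k → ∀ n, C n) × (Fin k → ℤ) =>
      fun i => mkUp pos (q.1 i) (q.2 i) := by
    refine measurable_pi_lambda _ fun i => ?_
    have h1 : Measurable fun q : (Fin k → ∀ n, C n) × (Fin k → ℤ) => (q.1 i, q.2 i) :=
      ((measurable_pi_apply i).comp measurable_fst).prodMk
        ((measurable_pi_apply i).comp measurable_snd)
    exact (measurable_mkUp pos).comp h1
  set V' : Set ((Fin k → ∀ n, C n) × (Fin k → ℤ)) :=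
    (fun q => fun i => mkUp pos (q.1 i) (q.2 i)) ⁻¹' V with hV'
  have hV'm : MeasurableSet V' := hmeas hV
  have hpre : (MeasurableEquiv.arrowProdEquivProdArrow (∀ n, C n) ℤ (Fin k)) ⁻¹' V' =
      (show Set (Fin k → (∀ n, C n) × ℤ) from V) := rfl
  have h1 := hmp.measure_preimage hV'm.nullMeasurableSet
  rw [hpre] at h1
  refine h1.trans ?_
  rw [Measure.prod_apply_symm hV'm]
  refine (lintegral_congr fun m => ?_).trans lintegral_zero
  have hsl : (fun y : Fin k → ∀ n, C n => (y, m)) ⁻¹' V' =
      {y | (fun i => mkUp pos (y i) (m i)) ∈ V} := rfl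
  rw [hsl]
  have hslm : MeasurableSet {y : Fin k → ∀ n, C n | (fun i => mkUp pos (y i) (m i)) ∈ V} := by
    rw [← hsl]
    exact measurable_prodMk_right hV'm
  have h2 := (measurePreserving_swap (C := C) k).measure_preimage hslm.nullMeasurableSet
  rw [← h2]
  exact h m

include hG hT in
theorem dichotomy (hA : HypA pos) (hV : MeasurableSet V) :
    Measure.pi (fun _ : Fin k => lam pos) V = 0 ∨
    Measure.pi (fun _ : Fin k => lam pos) Vᶜ = 0 := by
  rcases slices_dichotomy V hG hT hA hV with h | h
  · exact Or.inl (pi_lam_null V hV h)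
  · exact Or.inr (pi_lam_null Vᶜ hV.compl h)

end

end Pool.Agent.MP335725
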