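import Mathlib

/-!
Abstract canonical-representative construction: a countable additive group `G` acts on `Z`,
`D` is an exact transversal, `τ : Z ≃ᵐ Z` commutes with the action.  We get a transformation
`quotMap` of `Z` which is the induced map on `D` and the identity off `D`.
-/

set_option autoImplicit false

open MeasureTheory Set

namespace Pool.Agent.MP335725

section Canon

variable {G Z : Type*} [AddGroup G] [AddAction G Z]

/-- `D` meets every orbit exactly once, through a unique group element. -/
def IsTransversal (G : Type*) {Z : Type*} [AddGroup G] [AddAction G Z] (D : Set Z) : Prop :=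
  ∀ z : Z, ∃! g : G, g +ᵥ z ∈ D

variable {D : Set Z} (hD : IsTransversal G D)

/-- The group element moving `z` into `D`. -/
noncomputable def canonElt (hD : IsTransversal G D) (z : Z) : G := (hD z).choose

/-- The representative of the orbit of `z` in `D`. -/
noncomputable def canon (hD : IsTransversal G D) (z : Z) : Z := canonElt hD z +ᵥ z

include hD in
theorem trans_unique {z : Z} {g h : G} (hg : g +ᵥ z ∈ D) (hh : h +ᵥ z ∈ D) : g = h :=
  (hD z).unique hg hh

theorem canon_mem (z : Z) : canon hD z ∈ D := (hD z).choose_spec.1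

theorem canonElt_eq {z : Z} {g : G} (hg : g +ᵥ z ∈ D) : canonElt hD z = g :=
  (hD z).unique (hD z).choose_spec.1 hg

theorem canon_eq {z : Z} {g : G} (hg : g +ᵥ z ∈ D) : canon hD z = g +ᵥ z := by
  rw [canon, canonElt_eq hD hg]

theorem canon_of_mem {z : Z} (hz : z ∈ D) : canon hD z = z := by
  have : (0 : G) +ᵥ z ∈ D := by simpa using hz
  rw [canon_eq hD this, zero_vadd]

theorem canon_vadd (g : G) (z : Z) : canon hD (g +ᵥ z) = canon hD z := by
  have h : (canonElt hD z - g) +ᵥ (g +ᵥ z) ∈ D := by
    rw [← add_vadd, sub_add_cancel]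
    exact canon_mem hD z
  rw [canon_eq hD h, ← add_vadd, sub_add_cancel, canon]

theorem canon_exists (z : Z) : ∃ g : G, canon hD z = g +ᵥ z := ⟨_, rfl⟩

theorem mem_preimage_canon_iff (S : Set Z) (z : Z) :
    canon hD z ∈ S ↔ ∃ g : G, g +ᵥ z ∈ D ∩ S := by
  constructor
  · intro h
    exact ⟨canonElt hD z, canon_mem hD z, h⟩
  · rintro ⟨g, hg, hS⟩
    rwa [canon_eq hD hg]

variable [MeasurableSpace Z] [Countable G] [MeasurableConstVAdd G Z]

theorem measurable_canon (hDm : MeasurableSet D) : Measurable (canon hD) := by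
  intro S hS
  have : canon hD ⁻¹' S = ⋃ g : G, (fun z => g +ᵥ z) ⁻¹' (D ∩ S) := by
    ext z
    simp only [mem_preimage, mem_iUnion]
    exact mem_preimage_canon_iff hD S z
  rw [this]
  exact MeasurableSet.iUnion fun g => (hDm.inter hS).preimage (measurable_const_vadd g)

variable (τ : Z ≃ᵐ Z) (hτ : ∀ (g : G) (z : Z), τ (g +ᵥ z) = g +ᵥ τ z)

include hτ in
theorem symm_comm (g : G) (z : Z) : τ.symm (g +ᵥ z) = g +ᵥ τ.symm z := by
  apply τ.injective
  rw [hτ, τ.apply_symm_apply, τ.apply_symm_apply]

include hτ in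
theorem canon_comp (z : Z) : canon hD (τ (canon hD z)) = canon hD (τ z) := by
  obtain ⟨g, hg⟩ := canon_exists hD z
  rw [hg, hτ, canon_vadd]

open Classical in
/-- induced map on `D`, identity off `D`. -/
noncomputable def quotFun (hD : IsTransversal G D) (τ : Z ≃ᵐ Z) (z : Z) : Z :=
  if z ∈ D then canon hD (τ z) else z

theorem quotFun_of_mem {z : Z} (hz : z ∈ D) : quotFun hD τ z = canon hD (τ z) := if_pos hz

theorem quotFun_of_notMem {z : Z} (hz : z ∉ D) : quotFun hD τ z = z := if_neg hz

theorem measurable_quotFun (hDm : MeasurableSet D) : Measurable (quotFun hD τ) := by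
  classical
  exact Measurable.ite hDm ((measurable_canon hD hDm).comp τ.measurable) measurable_id

include hτ in
theorem quotFun_symm_quotFun (z : Z) : quotFun hD τ.symm (quotFun hD τ z) = z := by
  by_cases hz : z ∈ D
  · rw [quotFun_of_mem hD τ hz, quotFun_of_mem hD τ.symm (canon_mem hD _),
      canon_comp hD τ.symm (symm_comm τ hτ), τ.symm_apply_apply, canon_of_mem hD hz]
  · rw [quotFun_of_notMem hD τ hz, quotFun_of_notMem hD τ.symm hz]

/-- The induced transformation as a measurable equivalence. -/
noncomputable def quotMap (hD : IsTransversal G D) (hDm : MeasurableSet D) (τ : Z ≃ᵐ Z)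
    (hτ : ∀ (g : G) (z : Z), τ (g +ᵥ z) = g +ᵥ τ z) : Z ≃ᵐ Z where
  toFun := quotFun hD τ
  invFun := quotFun hD τ.symm
  left_inv z := quotFun_symm_quotFun hD τ hτ z
  right_inv z := by
    have := quotFun_symm_quotFun hD τ.symm (symm_comm τ hτ) z
    rwa [MeasurableEquiv.symm_symm] at this
  measurable_toFun := measurable_quotFun hD τ hDm
  measurable_invFun := measurable_quotFun hD τ.symm hDm

theorem quotMap_apply (hDm : MeasurableSet D) (z : Z) :
    quotMap hD hDm τ hτ z = quotFun hD τ z := rfl

theorem quotMap_symm_apply (hDm : MeasurableSet D) (z : Z) :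
    (quotMap hD hDm τ hτ).symm z = quotFun hD τ.symm z := rfl

omit [Countable G] [MeasurableConstVAdd G Z] in
include hD in
theorem isAddFundamentalDomain (hDm : MeasurableSet D) (μ : Measure Z) :
    IsAddFundamentalDomain G D μ :=
  IsAddFundamentalDomain.mk' hDm.nullMeasurableSet hD

theorem measurePreserving_quotMap (hDm : MeasurableSet D) (μ : Measure Z)
    [VAddInvariantMeasure G Z μ] (hμ : MeasurePreserving τ μ μ) :
    MeasurePreserving (quotMap hD hDm τ hτ) (μ.restrict D) (μ.restrict D) := by
  refine ⟨(quotMap hD hDm τ hτ).measurable, ?_⟩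
  ext S hS
  rw [Measure.map_apply (quotMap hD hDm τ hτ).measurable hS,
    Measure.restrict_apply ((quotMap hD hDm τ hτ).measurable hS), Measure.restrict_apply hS]
  -- the invariant set
  set A : Set Z := canon hD ⁻¹' S with hA
  have hAm : MeasurableSet A := measurable_canon hD hDm hS
  have hAinv : ∀ g : G, (fun x => g +ᵥ x) ⁻¹' A = A := by
    intro g
    ext z
    simp only [hA, mem_preimage, canon_vadd]
  have h1 : (quotMap hD hDm τ hτ) ⁻¹' S ∩ D = τ ⁻¹' A ∩ D := by
    ext z
    simp only [mem_inter_iff, mem_preimage, hA]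
    constructor
    · rintro ⟨h, hz⟩
      rw [quotMap_apply, quotFun_of_mem hD τ hz] at h
      exact ⟨h, hz⟩
    · rintro ⟨h, hz⟩
      rw [quotMap_apply, quotFun_of_mem hD τ hz]
      exact ⟨h, hz⟩
  have h2 : S ∩ D = A ∩ D := by
    ext z
    simp only [mem_inter_iff, mem_preimage, hA]
    constructor
    · rintro ⟨h, hz⟩
      rw [canon_of_mem hD hz]
      exact ⟨h, hz⟩
    · rintro ⟨h, hz⟩
      rw [canon_of_mem hD hz] at h
      exact ⟨h, hz⟩
  rw [h1, h2]
  -- second transversal
  set E : Set Z := τ.symm ⁻¹' D with hE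
  have hEm : MeasurableSet E := τ.symm.measurable hDm
  have hET : IsTransversal G E := by
    intro z
    obtain ⟨g, hg, hu⟩ := hD (τ.symm z)
    refine ⟨g, ?_, ?_⟩
    · simp only [hE, mem_preimage, symm_comm τ hτ]
      exact hg
    · intro h hh
      apply hu
      simp only [hE, mem_preimage, symm_comm τ hτ] at hh
      exact hh
  have h3 : τ ⁻¹' A ∩ D = τ ⁻¹' (A ∩ E) := by
    ext z
    simp only [mem_inter_iff, mem_preimage, hE, τ.symm_apply_apply]
  rw [h3, hμ.measure_preimage (hAm.inter hEm).nullMeasurableSet]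
  exact (isAddFundamentalDomain hET hEm μ).measure_set_eq
    (isAddFundamentalDomain hD hDm μ) hAm hAinv

end Canon

end Pool.Agent.MP335725
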