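import Mathlib
import Pool.Agent.Lib.MP_335725_an.Canon
import Pool.Agent.Lib.MP_335725_an.Upstairs

/-!
The transversal `DD` of the orbit equivalence relation upstairs.
-/

set_option autoImplicit false

open MeasureTheory Set Function
open scoped ENNReal

namespace Pool.Agent.MP335725

theorem top_index (a B H : ℕ → ℤ) (ha : (support a).Finite) (hB : ∀ n, |a n| ≤ B n)
    (hsep : ∀ n, a n ≠ 0 → H n + ∑ j ∈ Finset.range n, B j ≤ |a n|) (hne : ∃ n, a n ≠ 0) :
    ∃ N, a N ≠ 0 ∧ (∀ n, N < n → a n = 0) ∧ H N ≤ |∑ᶠ n, a n| := by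
  classical
  have hne' : ha.toFinset.Nonempty := by
    obtain ⟨n, hn⟩ := hne
    exact ⟨n, ha.mem_toFinset.2 hn⟩
  set N := ha.toFinset.max' hne' with hN
  have hNmem : a N ≠ 0 := by
    have := ha.toFinset.max'_mem hne'
    rw [ha.mem_toFinset] at this
    exact this
  have hgt : ∀ n, N < n → a n = 0 := by
    intro n hn
    by_contra h
    have : n ≤ N := Finset.le_max' _ _ (ha.mem_toFinset.2 h)
    omega
  refine ⟨N, hNmem, hgt, ?_⟩
  have hsum : ∑ᶠ n, a n = ∑ n ∈ Finset.range (N + 1), a n := by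
    refine finsum_eq_sum_of_support_subset _ ?_
    intro n hn
    rw [Finset.coe_range]
    by_contra h
    have h1 : N < n := by
      have : ¬ n < N + 1 := h
      omega
    exact hn (hgt n h1)
  rw [hsum, Finset.sum_range_succ]
  have h1 := hsep N hNmem
  have h2 : |∑ n ∈ Finset.range N, a n| ≤ ∑ n ∈ Finset.range N, B n :=
    (Finset.abs_sum_le_sum_abs _ _).trans (Finset.sum_le_sum fun n _ => hB n)
  have h3 : |a N| - |∑ n ∈ Finset.range N, a n| ≤ |∑ n ∈ Finset.range N, a n + a N| := by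
    have := abs_sub_abs_le_abs_sub (a N) (-(∑ n ∈ Finset.range N, a n))
    rw [abs_neg, sub_neg_eq_add, add_comm (a N)] at this
    exact this
  linarith

section

variable {C : ℕ → Type} [∀ n, Fintype (C n)]

/-- Separation hypotheses for the positions. -/
structure Sep (pos : ∀ n, C n → ℤ) (P H : ℕ → ℤ) : Prop where
  bound : ∀ n c, |pos n c| ≤ P n
  sep : ∀ n c c', c ≠ c' → H n + 4 * ∑ j ∈ Finset.range n, P j ≤ |pos n c - pos n c'|
  two_le : ∀ n, 2 ≤ H n
  grow : ∀ n : ℕ, (n : ℤ) * ∏ j ∈ Finset.range n, (Fintype.card (C j) : ℤ) ≤ H n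

variable {pos : ∀ n, C n → ℤ} {P H : ℕ → ℤ}

theorem Sep.P_nonneg [∀ n, Nonempty (C n)] (hS : Sep pos P H) (n : ℕ) : 0 ≤ P n :=
  (abs_nonneg _).trans (hS.bound n (Classical.arbitrary _))

variable [∀ n, AddCommGroup (C n)]

theorem coc_sep (hS : Sep pos P H) {g : Π₀ n, C n} (hg : g ≠ 0) (y : ∀ n, C n) :
    ∃ N, g N ≠ 0 ∧ (∀ n, N < n → g n = 0) ∧ H N ≤ |coc pos g y| := by
  have hP : ∀ n, 0 ≤ P n := hS.P_nonneg
  have hiff : ∀ n, pos n (y n) - pos n (g n + y n) ≠ 0 ↔ g n ≠ 0 := by
    intro n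
    constructor
    · intro h h0
      apply h
      simp [h0]
    · intro h
      have hne : y n ≠ g n + y n := by
        intro h1
        exact h (by simpa using h1)
      have h2 := hS.sep n _ _ hne
      have h3 := hS.two_le n
      have h4 : 0 ≤ ∑ j ∈ Finset.range n, P j := Finset.sum_nonneg fun j _ => hP j
      intro h0
      rw [h0, abs_zero] at h2
      linarith
  obtain ⟨N, h1, h2, h3⟩ := top_index (fun n => pos n (y n) - pos n (g n + y n))
    (fun n => 2 * P n) H (coc_finite pos g y) (by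
      intro n
      have h1 := hS.bound n (y n)
      have h2 := hS.bound n (g n + y n)
      have h3 := abs_sub (pos n (y n)) (pos n (g n + y n))
      linarith) (by
      intro n hn
      have hne : y n ≠ g n + y n := by
        intro h1
        exact (hiff n).1 hn (by simpa using h1)
      have h2 := hS.sep n _ _ hne
      have h4 : 0 ≤ ∑ j ∈ Finset.range n, P j := Finset.sum_nonneg fun j _ => hP j
      rw [← Finset.mul_sum]
      linarith) (by
      by_contra hcon
      push Not at hcon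
      apply hg
      ext n
      have := (hiff n).not.1 (by simpa using hcon n)
      simpa using this)
  refine ⟨N, (hiff N).1 h1, fun n hn => ?_, h3⟩
  have := (hiff n).not.1 (by simpa using h2 n hn)
  simpa using this

theorem coc_ne (hS : Sep pos P H) {g : Π₀ n, C n} (hg : g ≠ 0) (y : ∀ n, C n) :
    2 ≤ |coc pos g y| := by
  obtain ⟨N, _, _, h⟩ := coc_sep hS hg y
  exact (hS.two_le N).trans h

variable (pos) in
/-- The transversal. -/
def DD : Set (Up pos) := {z | ∀ g : Π₀ n, C n, rank z.m ≤ rank (g +ᵥ z).m}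

theorem isTransversal_DD (hS : Sep pos P H) : IsTransversal (Π₀ n, C n) (DD pos) := by
  classical
  intro z
  have hex : ∃ k, ∃ g : Π₀ n, C n, rank (g +ᵥ z).m = k := ⟨_, 0, rfl⟩
  obtain ⟨g, hg⟩ := Nat.find_spec hex
  have hmem : ∀ h : Π₀ n, C n, rank (g +ᵥ z).m ≤ rank (h +ᵥ z).m := by
    intro h
    rw [hg]
    exact Nat.find_min' hex ⟨h, rfl⟩
  refine ⟨g, ?_, ?_⟩
  · intro h
    rw [← add_vadd]
    exact hmem (h + g)
  · intro h hh
    by_contra hne
    have h1 := hmem h
    have h2 : rank (h +ᵥ z).m ≤ rank (g +ᵥ z).m := by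
      have := hh (g - h)
      rwa [← add_vadd, sub_add_cancel] at this
    have h3 : (h +ᵥ z).m = (g +ᵥ z).m := rank_inj (le_antisymm h2 h1)
    have h4 : (g +ᵥ z).m = (h +ᵥ z).m + coc pos (g - h) (h +ᵥ z).y := by
      rw [← vadd_m, ← add_vadd, sub_add_cancel]
    have h5 := coc_ne hS (sub_ne_zero.2 (Ne.symm hne)) (h +ᵥ z).y
    have h6 : coc pos (g - h) (h +ᵥ z).y = 0 := by linarith
    rw [h6, abs_zero] at h5
    omega

theorem mem_DD_zero (y : ∀ n, C n) : mkUp pos y 0 ∈ DD pos := by
  intro g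
  simp only [mkUp_m, rank]
  omega

theorem mem_DD_one (hS : Sep pos P H) (y : ∀ n, C n) : mkUp pos y 1 ∈ DD pos := by
  intro g
  by_cases hg : g = 0
  · rw [hg, zero_vadd]
  · have h := coc_ne hS hg y
    rw [vadd_m]
    simp only [mkUp_m, mkUp_y, rank]
    rw [le_abs] at h
    omega

end

section Meas

variable {C : ℕ → Type} [∀ n, Fintype (C n)] [∀ n, AddCommGroup (C n)]
  [∀ n, MeasurableSpace (C n)] [∀ n, MeasurableSingletonClass (C n)]
  {pos : ∀ n, C n → ℤ} {P H : ℕ → ℤ}

variable (pos) in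
theorem measurableSet_DD : MeasurableSet (DD pos) := by
  have : DD pos = ⋂ g : Π₀ n, C n, {z | rank z.m ≤ rank (g +ᵥ z).m} := by
    ext z; simp [DD]
  rw [this]
  refine MeasurableSet.iInter fun g => ?_
  have h1 : Measurable fun z : Up pos => rank z.m :=
    (measurable_of_countable rank).comp (measurable_m pos)
  have h2 : Measurable fun z : Up pos => rank (g +ᵥ z).m :=
    h1.comp (measurable_const_vadd g)
  exact measurableSet_le h1 h2

theorem lam_box (n : ℕ) (M : ℕ) :
    lam pos {z : Up pos | (∀ j < n, z.y j = 0) ∧ 0 ≤ z.m ∧ z.m < M} =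
      (∏ j ∈ Finset.range n, (Fintype.card (C j) : ℝ≥0∞)⁻¹) * M := by
  have h0 : ∀ j, unif (C j) ({0} : Set (C j)) = (Fintype.card (C j) : ℝ≥0∞)⁻¹ := by
    intro j
    have := unif_finset ({0} : Finset (C j))
    simpa using this
  have hset : {z : Up pos | (∀ j < n, z.y j = 0) ∧ 0 ≤ z.m ∧ z.m < M} =
      (show Set ((∀ n, C n) × ℤ) from
        (Set.pi (Finset.range n : Set ℕ) fun j => ({0} : Set (C j))) ×ˢ Set.Ico (0 : ℤ) M) := by
    ext z
    change ((∀ j < n, z.y j = 0) ∧ 0 ≤ z.m ∧ z.m < M) ↔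
      (z.y ∈ (Set.pi (Finset.range n : Set ℕ) fun j => ({0} : Set (C j))) ∧
        z.m ∈ Set.Ico (0 : ℤ) M)
    simp [Set.mem_pi, Set.mem_Ico]
  rw [hset]
  change (nu C).prod Measure.count ((Set.pi (Finset.range n : Set ℕ)
    fun j => ({0} : Set (C j))) ×ˢ Set.Ico (0 : ℤ) M) = _
  rw [Measure.prod_prod]
  congr 1
  · unfold nu
    rw [Measure.infinitePi_pi _ (fun j _ => measurableSet_singleton _)]
    exact Finset.prod_congr rfl fun j _ => h0 j
  · rw [← Finset.coe_Ico, Measure.count_apply_finset]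
    simp

theorem lam_DD (hS : Sep pos P H) : lam pos (DD pos) = ∞ := by
  have hD := isTransversal_DD hS
  have hfd : IsAddFundamentalDomain (Π₀ n, C n) (DD pos) (lam pos) :=
    isAddFundamentalDomain hD (measurableSet_DD pos) (lam pos)
  have key : ∀ n : ℕ, (n : ℝ≥0∞) ≤ lam pos (DD pos) := by
    intro n
    set M : ℕ := n * ∏ j ∈ Finset.range n, Fintype.card (C j) with hM
    have hbox := lam_box (pos := pos) n M
    have hval : (∏ j ∈ Finset.range n, (Fintype.card (C j) : ℝ≥0∞)⁻¹) * M = n := by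
      have h1 : (∏ j ∈ Finset.range n, (Fintype.card (C j) : ℝ≥0∞)⁻¹) =
          (((∏ j ∈ Finset.range n, Fintype.card (C j) : ℕ) : ℝ≥0∞))⁻¹ := by
        rw [Nat.cast_prod]
        exact (ENNReal.prod_inv_distrib (by simp [Set.Pairwise])).symm
      rw [h1, hM, Nat.cast_mul, mul_comm (n : ℝ≥0∞), ← mul_assoc, ENNReal.inv_mul_cancel, one_mul]
      · rw [Nat.cast_ne_zero, Finset.prod_ne_zero_iff]
        intro j _
        exact Fintype.card_ne_zero
      · exact ENNReal.natCast_ne_top _
    rw [hval] at hbox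
    rw [← hbox]
    by_contra hlt
    rw [not_le] at hlt
    have hbm : NullMeasurableSet {z : Up pos | (∀ j < n, z.y j = 0) ∧ 0 ≤ z.m ∧ z.m < M}
        (lam pos) := by
      have : MeasurableSet {z : Up pos | (∀ j < n, z.y j = 0) ∧ 0 ≤ z.m ∧ z.m < M} := by
        have e : {z : Up pos | (∀ j < n, z.y j = 0) ∧ 0 ≤ z.m ∧ z.m < M} =
          (⋂ j, ⋂ (_ : j < n), {z : Up pos | z.y j = 0}) ∩ ({z | 0 ≤ z.m} ∩ {z | z.m < M}) := by
          ext z; simp
        rw [e]
        refine MeasurableSet.inter (MeasurableSet.iInter fun j => MeasurableSet.iInter fun _ => ?_)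
          (MeasurableSet.inter ?_ ?_)
        · exact ((measurable_pi_apply j).comp (measurable_y pos)) (measurableSet_singleton 0)
        · exact measurableSet_le measurable_const (measurable_m pos)
        · exact measurableSet_lt (measurable_m pos) measurable_const
      exact this.nullMeasurableSet
    obtain ⟨x, hx, x', hx', g, hg, hgx⟩ := hfd.exists_ne_zero_vadd_eq hbm hlt
    obtain ⟨N, hN0, _, hN⟩ := coc_sep hS hg x.y
    have hnN : n ≤ N := by
      by_contra hlt2
      rw [not_le] at hlt2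
      apply hN0
      have h1 := hx.1 N hlt2
      have h2 := hx'.1 N hlt2
      rw [← hgx, vadd_y] at h2
      simp only [trans] at h2
      rw [h1, add_zero] at h2
      exact h2
    have hgrow := hS.grow N
    have hmono : (M : ℤ) ≤ (N : ℤ) * ∏ j ∈ Finset.range N, (Fintype.card (C j) : ℤ) := by
      have h1 : (∏ j ∈ Finset.range n, Fintype.card (C j)) ≤
          ∏ j ∈ Finset.range N, Fintype.card (C j) :=
        Finset.prod_le_prod_of_subset_of_one_le' (Finset.range_mono hnN)
          (fun j _ _ => Fintype.card_pos)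
      have h2 : M ≤ N * ∏ j ∈ Finset.range N, Fintype.card (C j) := Nat.mul_le_mul hnN h1
      exact_mod_cast h2
    have hm : x'.m = x.m + coc pos g x.y := by rw [← hgx, vadd_m]
    obtain ⟨-, h1, h2⟩ := hx
    obtain ⟨-, h3, h4⟩ := hx'
    have h5 : |coc pos g x.y| < M := by
      rw [abs_lt]
      constructor <;> linarith
    linarith
  refine ENNReal.eq_top_of_forall_nnreal_le fun r => ?_
  obtain ⟨n, hn⟩ := exists_nat_ge (r : ℝ)
  refine le_trans ?_ (key n)
  have : (r : NNReal) ≤ n := by exact_mod_cast hn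
  exact_mod_cast this

theorem noAtoms_nu (h2 : ∀ n, 2 ≤ Fintype.card (C n)) : NullSingletonClass (nu C) := by
  refine ⟨fun y => ?_⟩
  have key : ∀ n : ℕ, nu C {y} ≤ (2⁻¹ : ℝ≥0∞) ^ n := by
    intro n
    have hsub : ({y} : Set (∀ n, C n)) ⊆ Set.pi (Finset.range n : Set ℕ) fun j => {y j} := by
      rintro z rfl
      intro j _
      rfl
    refine (measure_mono hsub).trans ?_
    unfold nu
    rw [Measure.infinitePi_pi _ (fun j _ => measurableSet_singleton _)]
    calc (∏ j ∈ Finset.range n, unif (C j) {y j}) ≤ ∏ j ∈ Finset.range n, (2⁻¹ : ℝ≥0∞) := by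
          refine Finset.prod_le_prod' fun j _ => ?_
          have h := unif_finset ({y j} : Finset (C j))
          rw [Finset.coe_singleton, Finset.card_singleton, Nat.cast_one, one_div] at h
          rw [h, ENNReal.inv_le_inv]
          exact_mod_cast h2 j
      _ = (2⁻¹ : ℝ≥0∞) ^ n := by simp
  have hlim : Filter.Tendsto (fun n : ℕ => (2⁻¹ : ℝ≥0∞) ^ n) Filter.atTop (nhds 0) :=
    ENNReal.tendsto_pow_atTop_nhds_zero_of_lt_one (by
      rw [ENNReal.inv_lt_one]; exact ENNReal.one_lt_two)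
  exact le_antisymm (ge_of_tendsto' hlim key) (zero_le)

theorem noAtoms_lam (h2 : ∀ n, 2 ≤ Fintype.card (C n)) : NullSingletonClass (lam pos) := by
  have := noAtoms_nu h2
  change NullSingletonClass ((nu C).prod (Measure.count : Measure ℤ))
  infer_instance

end Meas

end Pool.Agent.MP335725
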