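import Mathlib
import Pool.Agent.Lib.MP_335725_an.Domain
import Pool.Agent.Lib.MP_335725_an.Dichotomy

/-!
The transformation and the ergodicity of its powers.
-/

set_option autoImplicit false

open MeasureTheory Set Function
open scoped ENNReal symmDiff

namespace Pool.Agent.MP335725

variable {C : ℕ → Type} [∀ n, Fintype (C n)] [∀ n, AddCommGroup (C n)]
  [∀ n, MeasurableSpace (C n)] [∀ n, MeasurableSingletonClass (C n)]
  {pos : ∀ n, C n → ℤ} {P H : ℕ → ℤ}

/-- The transformation. -/
noncomputable def TT (hS : Sep pos P H) : Up pos ≃ᵐ Up pos :=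
  quotMap (isTransversal_DD hS) (measurableSet_DD pos) (tau pos) (tau_vadd pos)

variable (pos) in
/-- The measure downstairs. -/
noncomputable def mu : Measure (Up pos) := (lam pos).restrict (DD pos)

instance : SigmaFinite (mu pos) := by
  unfold mu; infer_instance

theorem TT_mp (hS : Sep pos P H) : MeasurePreserving (TT hS) (mu pos) (mu pos) :=
  measurePreserving_quotMap (isTransversal_DD hS) (tau pos) (tau_vadd pos) (measurableSet_DD pos)
    (lam pos) (measurePreserving_tau pos)

theorem TT_canon (hS : Sep pos P H) (z : Up pos) :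
    TT hS (canon (isTransversal_DD hS) z) = canon (isTransversal_DD hS) (tau pos z) := by
  unfold TT
  rw [quotMap_apply, quotFun_of_mem _ _ (canon_mem _ _), canon_comp _ _ (tau_vadd pos)]

theorem TT_symm_canon (hS : Sep pos P H) (z : Up pos) :
    (TT hS).symm (canon (isTransversal_DD hS) z) =
      canon (isTransversal_DD hS) ((tau pos).symm z) := by
  unfold TT
  rw [quotMap_symm_apply, quotFun_of_mem _ _ (canon_mem _ _),
    canon_comp _ _ (symm_comm (tau pos) (tau_vadd pos))]

theorem ergodic_powers (hS : Sep pos P H) (hA : HypA pos) (k : ℕ) :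
    Ergodic (fun x : Fin k → Up pos => fun i => TT hS (x i))
      (Measure.pi (fun _ : Fin k => mu pos)) := by
  have hmp : MeasurePreserving (fun x : Fin k → Up pos => fun i => TT hS (x i))
      (Measure.pi (fun _ : Fin k => mu pos)) (Measure.pi (fun _ : Fin k => mu pos)) :=
    measurePreserving_pi (fun _ : Fin k => mu pos) (fun _ : Fin k => mu pos) (fun _ => TT_mp hS)
  refine ⟨hmp, ⟨?_⟩⟩
  intro W hW hWinv
  set hD := isTransversal_DD hS with hDdef
  set V : Set (Fin k → Up pos) := (fun z i => canon hD (z i)) ⁻¹' W with hV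
  have hcm : Measurable (fun (z : Fin k → Up pos) i => canon hD (z i)) :=
    measurable_pi_lambda _ fun i =>
      (measurable_canon hD (measurableSet_DD pos)).comp (measurable_pi_apply i)
  have hVm : MeasurableSet V := hcm hW
  have hG : ∀ (g : Fin k → Π₀ n, C n) (z : Fin k → Up pos),
      (fun i => g i +ᵥ z i) ∈ V ↔ z ∈ V := by
    intro g z
    simp only [hV, mem_preimage, canon_vadd]
  have hT : ∀ z : Fin k → Up pos, (fun i => mkUp pos (z i).y ((z i).m + 1)) ∈ V ↔ z ∈ V := by
    intro z
    have h1 : (fun i => canon hD (tau pos (z i))) = fun i => TT hS (canon hD (z i)) := by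
      funext i
      exact (TT_canon hS (z i)).symm
    have h2 : (fun i => mkUp pos (z i).y ((z i).m + 1)) = fun i => tau pos (z i) := rfl
    rw [h2]
    simp only [hV, mem_preimage]
    rw [h1]
    have h3 := Set.ext_iff.1 hWinv (fun i => canon hD (z i))
    exact h3
  have hrest : Measure.pi (fun _ : Fin k => mu pos) =
      (Measure.pi (fun _ : Fin k => lam pos)).restrict (Set.univ.pi fun _ => DD pos) := by
    unfold mu
    rw [Measure.restrict_pi_pi]
  have hDm : MeasurableSet (Set.univ.pi fun _ : Fin k => DD pos) :=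
    MeasurableSet.univ_pi fun _ => measurableSet_DD pos
  have hcD : ∀ z ∈ (Set.univ.pi fun _ : Fin k => DD pos), (fun i => canon hD (z i)) = z := by
    intro z hz
    funext i
    exact canon_of_mem hD (hz i (mem_univ i))
  rw [Filter.eventuallyConst_set']
  rcases dichotomy V hG hT hA hVm with h0 | h0
  · left
    rw [MeasureTheory.ae_eq_empty, hrest, Measure.restrict_apply hW]
    refine measure_mono_null ?_ h0
    rintro z ⟨hz, hzD⟩
    change (fun i => canon hD (z i)) ∈ W
    rw [hcD z hzD]
    exact hz
  · right
    rw [MeasureTheory.ae_eq_univ, hrest, Measure.restrict_apply hW.compl]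
    refine measure_mono_null ?_ h0
    rintro z ⟨hz, hzD⟩
    change ¬ (fun i => canon hD (z i)) ∈ W
    rw [hcD z hzD]
    exact hz

end Pool.Agent.MP335725
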