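import Mathlib
import Pool.Agent.Lib.MP_335725_an.Powers

/-!
The product of the transformation with its inverse is not ergodic.
-/

set_option autoImplicit false

open MeasureTheory Set Function
open scoped ENNReal symmDiff

namespace Pool.Agent.MP335725

theorem prod_unif {α β : Type} [Fintype α] [MeasurableSpace α] [MeasurableSingletonClass α]
    [Nonempty α] [Fintype β] [MeasurableSpace β] [MeasurableSingletonClass β] [Nonempty β] :
    (unif α).prod (unif β) = unif (α × β) := by
  classical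
  have h2 : ∀ (γ : Type) [Fintype γ] [MeasurableSpace γ] [MeasurableSingletonClass γ] (a : γ),
      unif γ {a} = (Fintype.card γ : ℝ≥0∞)⁻¹ := by
    intro γ _ _ _ a
    have := unif_finset ({a} : Finset γ)
    simpa using this
  refine Measure.ext_of_singleton fun p => ?_
  obtain ⟨a, b⟩ := p
  rw [← Set.singleton_prod_singleton, Measure.prod_prod, h2, h2, Set.singleton_prod_singleton, h2,
    Fintype.card_prod, Nat.cast_mul, ENNReal.mul_inv]
  · exact Or.inr (ENNReal.natCast_ne_top _)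
  · exact Or.inl (ENNReal.natCast_ne_top _)

variable {C : ℕ → Type} [∀ n, Fintype (C n)]

/-- The combinatorial hypothesis giving non-ergodicity of the product with the inverse. -/
structure HypB (pos : ∀ n, C n → ℤ) (P H : ℕ → ℤ) (Q : ∀ n, Finset (C n × C n)) : Prop where
  small : ∀ n, (Fintype.card (C n × C n) - (Q n).card) * 2 ^ (n + 2) ≤ Fintype.card (C n × C n)
  gap : ∀ n, ∀ p ∈ Q n, ∀ q ∈ Q n, (pos n p.1 + pos n p.2) - (pos n q.1 + pos n q.2) ≠ 0 →
    H n + 4 * ∑ j ∈ Finset.range n, P j ≤ |(pos n p.1 + pos n p.2) - (pos n q.1 + pos n q.2)|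

section Good

variable [∀ n, MeasurableSpace (C n)] [∀ n, MeasurableSingletonClass (C n)]
  [∀ n, Nonempty (C n)] {pos : ∀ n, C n → ℤ} {P H : ℕ → ℤ} {Q : ∀ n, Finset (C n × C n)}

/-- The good pairs of sequences. -/
def good (Q : ∀ n, Finset (C n × C n)) : Set ((∀ n, C n) × (∀ n, C n)) :=
  {q | ∀ n, (q.1 n, q.2 n) ∈ Q n}

omit [∀ n, Nonempty (C n)] in
theorem measurableSet_good : MeasurableSet (good Q) := by
  have : good Q = ⋂ n, {q | (q.1 n, q.2 n) ∈ Q n} := by
    ext q; simp [good]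
  rw [this]
  refine MeasurableSet.iInter fun n => ?_
  have h1 : Measurable fun q : (∀ n, C n) × (∀ n, C n) => (q.1 n, q.2 n) :=
    ((measurable_pi_apply n).comp measurable_fst).prodMk
      ((measurable_pi_apply n).comp measurable_snd)
  exact h1 (Q n).measurableSet

theorem good_pos (hB : HypB pos P H Q) : (nu C).prod (nu C) (good Q) ≠ 0 := by
  classical
  have hbad : ∀ n, (nu C).prod (nu C) {q | (q.1 n, q.2 n) ∉ Q n} ≤ (2⁻¹ : ℝ≥0∞) ^ (n + 2) := by
    intro n
    have hmp : MeasurePreserving (Prod.map (Function.eval n) (Function.eval n))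
        ((nu C).prod (nu C)) ((unif (C n)).prod (unif (C n))) :=
      (measurePreserving_eval_infinitePi (fun n => unif (C n)) n).prod
        (measurePreserving_eval_infinitePi (fun n => unif (C n)) n)
    have h1 := hmp.measure_preimage (s := (((Q n)ᶜ : Finset (C n × C n)) : Set (C n × C n)))
      (Finset.measurableSet _).nullMeasurableSet
    have h2 : (Prod.map (Function.eval n) (Function.eval n)) ⁻¹'
        (((Q n)ᶜ : Finset (C n × C n)) : Set (C n × C n)) =
        {q : (∀ n, C n) × (∀ n, C n) | (q.1 n, q.2 n) ∉ Q n} := by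
      ext q
      rw [Finset.coe_compl]
      rfl
    rw [h2] at h1
    rw [h1, prod_unif, unif_finset, Finset.card_compl]
    have h3 := hB.small n
    have hc0 : (Fintype.card (C n × C n) : ℝ≥0∞) ≠ 0 := by
      rw [Nat.cast_ne_zero]; exact Fintype.card_ne_zero
    rw [ENNReal.div_le_iff hc0 (ENNReal.natCast_ne_top _), ← ENNReal.inv_pow]
    have h4 : ((Fintype.card (C n × C n) - (Q n).card : ℕ) : ℝ≥0∞) * 2 ^ (n + 2) ≤
        (Fintype.card (C n × C n) : ℝ≥0∞) := by exact_mod_cast h3
    rw [mul_comm, ← div_eq_mul_inv]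
    rw [ENNReal.le_div_iff_mul_le]
    · exact h4
    · left; positivity
    · left; exact ENNReal.pow_ne_top (by simp)
  have hbadU : (nu C).prod (nu C) (good Q)ᶜ ≤ 2⁻¹ := by
    have hset : (good Q)ᶜ = ⋃ n, {q : (∀ n, C n) × (∀ n, C n) | (q.1 n, q.2 n) ∉ Q n} := by
      ext q; simp [good]
    rw [hset]
    refine (measure_iUnion_le _).trans ((ENNReal.tsum_le_tsum hbad).trans ?_)
    have h1 : ∀ n : ℕ, (2⁻¹ : ℝ≥0∞) ^ (n + 2) = (2⁻¹ : ℝ≥0∞) ^ 2 * (2⁻¹ : ℝ≥0∞) ^ n := by
      intro n; rw [pow_add, mul_comm]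
    rw [tsum_congr h1, ENNReal.tsum_mul_left, ENNReal.tsum_geometric, ENNReal.one_sub_inv_two, inv_inv, sq,
      mul_assoc, ENNReal.inv_mul_cancel (by simp) (by simp), mul_one]
  intro h0
  have h1 := prob_compl_eq_one_iff (μ := (nu C).prod (nu C)) (measurableSet_good (Q := Q))
  rw [h1.2 h0] at hbadU
  have : (2⁻¹ : ℝ≥0∞) < 1 := by rw [ENNReal.inv_lt_one]; exact ENNReal.one_lt_two
  exact absurd hbadU (not_le.2 this)

variable (pos) in
theorem mp_y (a : ℤ) : MeasurePreserving (fun z : Up pos => z.y)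
    ((lam pos).restrict {z | z.m = a}) (nu C) := by
  have hma : MeasurableSet {z : Up pos | z.m = a} := (measurable_m pos) (measurableSet_singleton a)
  refine ⟨measurable_y pos, ?_⟩
  ext s hs
  rw [Measure.map_apply (measurable_y pos) hs, Measure.restrict_apply ((measurable_y pos) hs)]
  change (nu C).prod (Measure.count : Measure ℤ)
    (show Set ((∀ n, C n) × ℤ) from (fun z : Up pos => z.y) ⁻¹' s ∩ {z : Up pos | z.m = a}) = _
  have : (show Set ((∀ n, C n) × ℤ) from
      (fun z : Up pos => z.y) ⁻¹' s ∩ {z : Up pos | z.m = a}) = s ×ˢ {a} := rfl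
  rw [this, Measure.prod_prod, Measure.count_singleton, mul_one]

variable (pos) in
/-- the test sets -/
def RR (Q : ∀ n, Finset (C n × C n)) (a b : ℤ) : Set (Up pos × Up pos) :=
  {q | (q.1.m = a ∧ q.2.m = b) ∧ (q.1.y, q.2.y) ∈ good Q}

theorem RR_pos (hB : HypB pos P H Q) (a b : ℤ) : (lam pos).prod (lam pos) (RR pos Q a b) ≠ 0 := by
  have hmp := (mp_y pos a).prod (mp_y pos b)
  have h1 := hmp.measure_preimage (measurableSet_good (Q := Q)).nullMeasurableSet
  rw [Measure.prod_restrict, Measure.restrict_apply (hmp.measurable measurableSet_good)] at h1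
  have h2 : Prod.map (fun z : Up pos => z.y) (fun z : Up pos => z.y) ⁻¹' good Q ∩
      {z : Up pos | z.m = a} ×ˢ {z : Up pos | z.m = b} = RR pos Q a b := by
    ext q
    simp only [mem_inter_iff, mem_preimage, RR, mem_prod]
    change (_ ∧ (q.1.m = a ∧ q.2.m = b)) ↔ ((q.1.m = a ∧ q.2.m = b) ∧ _)
    rw [and_comm]
    rfl
  rw [h2] at h1
  rw [h1]
  exact good_pos hB

end Good

variable [∀ n, AddCommGroup (C n)]
  [∀ n, MeasurableSpace (C n)] [∀ n, MeasurableSingletonClass (C n)]
  {pos : ∀ n, C n → ℤ} {P H : ℕ → ℤ} {Q : ∀ n, Finset (C n × C n)}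

variable (pos) in
/-- the invariant set upstairs -/
def WW (Q : ∀ n, Finset (C n × C n)) : Set (Up pos × Up pos) :=
  {q | ∃ g g' : Π₀ n, C n, (g +ᵥ q.1).m + (g' +ᵥ q.2).m = 0 ∧
    ((g +ᵥ q.1).y, (g' +ᵥ q.2).y) ∈ good Q}

theorem measurableSet_WW : MeasurableSet (WW pos Q) := by
  have : WW pos Q = ⋃ g : Π₀ n, C n, ⋃ g' : Π₀ n, C n,
      {q : Up pos × Up pos | (g +ᵥ q.1).m + (g' +ᵥ q.2).m = 0} ∩
      {q : Up pos × Up pos | ((g +ᵥ q.1).y, (g' +ᵥ q.2).y) ∈ good Q} := by
    ext q
    simp only [mem_iUnion, mem_inter_iff]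
    rfl
  rw [this]
  refine MeasurableSet.iUnion fun g => MeasurableSet.iUnion fun g' => MeasurableSet.inter ?_ ?_
  · have h1 : Measurable fun q : Up pos × Up pos => (g +ᵥ q.1).m + (g' +ᵥ q.2).m :=
      ((measurable_m pos).comp ((measurable_const_vadd g).comp measurable_fst)).add
        ((measurable_m pos).comp ((measurable_const_vadd g').comp measurable_snd))
    exact h1 (measurableSet_singleton 0)
  · have h1 : Measurable fun q : Up pos × Up pos => ((g +ᵥ q.1).y, (g' +ᵥ q.2).y) :=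
      ((measurable_y pos).comp ((measurable_const_vadd g).comp measurable_fst)).prodMk
        ((measurable_y pos).comp ((measurable_const_vadd g').comp measurable_snd))
    exact h1 measurableSet_good

omit [∀ n, Fintype (C n)] [∀ n, MeasurableSpace (C n)] [∀ n, MeasurableSingletonClass (C n)] in
theorem WW_vadd (h h' : Π₀ n, C n) (z z' : Up pos) :
    (h +ᵥ z, h' +ᵥ z') ∈ WW pos Q ↔ (z, z') ∈ WW pos Q := by
  constructor
  · rintro ⟨g, g', h1, h2⟩
    refine ⟨g + h, g' + h', ?_, ?_⟩
    · simpa only [add_vadd] using h1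
    · simpa only [add_vadd] using h2
  · rintro ⟨g, g', h1, h2⟩
    refine ⟨g - h, g' - h', ?_, ?_⟩
    · simpa only [← add_vadd, sub_add_cancel] using h1
    · simpa only [← add_vadd, sub_add_cancel] using h2

omit [∀ n, Fintype (C n)] [∀ n, MeasurableSingletonClass (C n)] in
theorem WW_tau (z z' : Up pos) :
    (tau pos z, (tau pos).symm z') ∈ WW pos Q ↔ (z, z') ∈ WW pos Q := by
  unfold WW
  change (∃ g g' : Π₀ n, C n, (g +ᵥ tau pos z).m + (g' +ᵥ (tau pos).symm z').m = 0 ∧
    ((g +ᵥ tau pos z).y, (g' +ᵥ (tau pos).symm z').y) ∈ good Q) ↔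
    (∃ g g' : Π₀ n, C n, (g +ᵥ z).m + (g' +ᵥ z').m = 0 ∧
    ((g +ᵥ z).y, (g' +ᵥ z').y) ∈ good Q)
  refine exists_congr fun g => exists_congr fun g' => ?_
  rw [tau_symm_apply, tau_apply]
  simp only [vadd_m, vadd_y, mkUp_m, mkUp_y]
  have : z.m + 1 + coc pos g z.y + (z'.m - 1 + coc pos g' z'.y) =
      z.m + coc pos g z.y + (z'.m + coc pos g' z'.y) := by ring
  rw [this]

theorem RR_disjoint (hS : Sep pos P H) (hB : HypB pos P H Q) {q : Up pos × Up pos}
    (hq : q ∈ RR pos Q 1 0) : q ∉ WW pos Q := by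
  rintro ⟨g, g', h1, h2⟩
  obtain ⟨⟨hm1, hm2⟩, hgood⟩ := hq
  rw [vadd_m, vadd_m, hm1, hm2] at h1
  rw [vadd_y, vadd_y] at h2
  set a : ℕ → ℤ := fun n => (pos n (q.1.y n) + pos n (q.2.y n)) -
    (pos n (trans g q.1.y n) + pos n (trans g' q.2.y n)) with ha
  have hsum : coc pos g q.1.y + coc pos g' q.2.y = ∑ᶠ n, a n := by
    unfold coc
    rw [← finsum_add_distrib (coc_finite pos g q.1.y) (coc_finite pos g' q.2.y)]
    congr 1
    funext n
    simp only [ha, trans]
    ring
  have hfin : (support a).Finite := by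
    refine ((coc_finite pos g q.1.y).union (coc_finite pos g' q.2.y)).subset ?_
    intro n hn
    by_contra hcon
    rw [mem_union, not_or, notMem_support, notMem_support] at hcon
    apply hn
    simp only [ha, trans]
    linarith [hcon.1, hcon.2]
  have ha' : ∀ n, a n = (pos n (q.1.y n) + pos n (q.2.y n)) -
        (pos n (trans g q.1.y n) + pos n (trans g' q.2.y n)) := fun n => rfl
  clear_value a
  have hbound : ∀ n, |a n| ≤ 4 * P n := by
    intro n
    have b1 := abs_le.1 (hS.bound n (q.1.y n))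
    have b2 := abs_le.1 (hS.bound n (q.2.y n))
    have b3 := abs_le.1 (hS.bound n (trans g q.1.y n))
    have b4 := abs_le.1 (hS.bound n (trans g' q.2.y n))
    rw [ha', abs_le]
    constructor
    · linarith [b1.1, b1.2, b2.1, b2.2, b3.1, b3.2, b4.1, b4.2]
    · linarith [b1.1, b1.2, b2.1, b2.2, b3.1, b3.2, b4.1, b4.2]
  have hgap : ∀ n, a n ≠ 0 → H n + ∑ j ∈ Finset.range n, 4 * P j ≤ |a n| := by
    intro n hn
    rw [← Finset.mul_sum]
    have e := hB.gap n (q.1.y n, q.2.y n) (hgood n) (trans g q.1.y n, trans g' q.2.y n) (h2 n)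
    rw [ha'] at hn ⊢
    exact e hn
  by_cases hne : ∃ n, a n ≠ 0
  · obtain ⟨N, -, -, hN⟩ := top_index a (fun n => 4 * P n) H hfin hbound hgap hne
    have h3 := hS.two_le N
    rw [← hsum] at hN
    have h4 : coc pos g q.1.y + coc pos g' q.2.y = -1 := by linarith
    rw [h4] at hN
    norm_num at hN
    linarith
  · push Not at hne
    have : ∑ᶠ n, a n = 0 := finsum_eq_zero_of_forall_eq_zero hne
    rw [this] at hsum
    linarith

theorem not_ergodic (hS : Sep pos P H) (hB : HypB pos P H Q) :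
    ¬ Ergodic (fun p : Up pos × Up pos => (TT hS p.1, (TT hS).symm p.2))
      ((mu pos).prod (mu pos)) := by
  intro herg
  set hD := isTransversal_DD hS with hDdef
  set W : Set (Up pos × Up pos) := WW pos Q ∩ (DD pos) ×ˢ (DD pos) with hW
  have hDm := measurableSet_DD pos
  have hWm : MeasurableSet W := measurableSet_WW.inter (hDm.prod hDm)
  have hcan : ∀ z z' : Up pos, (canon hD z, canon hD z') ∈ WW pos Q ↔ (z, z') ∈ WW pos Q := by
    intro z z'
    obtain ⟨g, hg⟩ := canon_exists hD z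
    obtain ⟨g', hg'⟩ := canon_exists hD z'
    rw [hg, hg']
    exact WW_vadd g g' z z'
  have hTn : ∀ z, z ∉ DD pos → TT hS z = z := fun z hz => quotFun_of_notMem hD (tau pos) hz
  have hTsn : ∀ z, z ∉ DD pos → (TT hS).symm z = z :=
    fun z hz => quotFun_of_notMem hD (tau pos).symm hz
  have hTm : ∀ z, z ∈ DD pos → TT hS z = canon hD (tau pos z) :=
    fun z hz => quotFun_of_mem hD (tau pos) hz
  have hTsm : ∀ z, z ∈ DD pos → (TT hS).symm z = canon hD ((tau pos).symm z) :=
    fun z hz => quotFun_of_mem hD (tau pos).symm hz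
  have hinv : (fun p : Up pos × Up pos => (TT hS p.1, (TT hS).symm p.2)) ⁻¹' W = W := by
    ext ⟨z, z'⟩
    simp only [mem_preimage, hW, mem_inter_iff, mem_prod]
    by_cases hz : z ∈ DD pos
    · by_cases hz' : z' ∈ DD pos
      · rw [hTm z hz, hTsm z' hz', hcan, WW_tau]
        simp [hz, hz', canon_mem]
      · rw [hTsn z' hz']
        simp [hz']
    · rw [hTn z hz]
      simp [hz]
  have hc := herg.aeconst_set hWm hinv
  rw [Filter.eventuallyConst_set'] at hc
  have hprod : (mu pos).prod (mu pos) =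
      ((lam pos).prod (lam pos)).restrict ((DD pos) ×ˢ (DD pos)) := by
    unfold mu
    rw [Measure.prod_restrict]
  rcases hc with h0 | h0
  · rw [MeasureTheory.ae_eq_empty, hprod, Measure.restrict_apply hWm] at h0
    apply RR_pos hB 0 0
    refine measure_mono_null ?_ h0
    rintro ⟨z, z'⟩ ⟨⟨h1, h2⟩, h3⟩
    simp only at h1 h2 h3
    have hz : z ∈ DD pos := by
      have := mem_DD_zero (pos := pos) z.y
      rwa [← h1, mkUp_eta] at this
    have hz' : z' ∈ DD pos := by
      have := mem_DD_zero (pos := pos) z'.y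
      rwa [← h2, mkUp_eta] at this
    refine ⟨⟨⟨0, 0, ?_, ?_⟩, hz, hz'⟩, hz, hz'⟩
    · simp only [zero_vadd]
      rw [h1, h2, add_zero]
    · simp only [zero_vadd]
      exact h3
  · rw [MeasureTheory.ae_eq_univ, hprod, Measure.restrict_apply hWm.compl] at h0
    apply RR_pos hB 1 0
    refine measure_mono_null ?_ h0
    rintro q hq
    have hq' := hq
    obtain ⟨z, z'⟩ := q
    obtain ⟨⟨h1, h2⟩, h3⟩ := hq'
    simp only at h1 h2 h3
    have hz : z ∈ DD pos := by
      have := mem_DD_one hS z.y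
      rwa [← h1, mkUp_eta] at this
    have hz' : z' ∈ DD pos := by
      have := mem_DD_zero (pos := pos) z'.y
      rwa [← h2, mkUp_eta] at this
    exact ⟨fun h => RR_disjoint hS hB hq h.1, hz, hz'⟩

end Pool.Agent.MP335725
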