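import Mathlib
import Pool.Agent.Lib.MP_335725_an.NonErgodic

/-!
The abstract existence theorem, from combinatorial data.
-/

set_option autoImplicit false

open MeasureTheory Set Function
open scoped ENNReal symmDiff

namespace Pool.Agent.MP335725

/-- The conclusion wanted. -/
def Conclusion : Prop :=
  ∃ (X : Type) (_ : MeasurableSpace X) (_ : StandardBorelSpace X)
      (μ : Measure X) (_ : SigmaFinite μ) (_ : NullSingletonClass μ) (T : X ≃ᵐ X),
      μ Set.univ = ⊤ ∧
      MeasurePreserving (T : X → X) μ μ ∧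
      (∀ k : ℕ, 1 ≤ k →
        Ergodic (fun x : Fin k → X => fun i => T (x i))
          (Measure.pi (fun _ : Fin k => μ))) ∧
      ¬ Ergodic (fun p : X × X => (T p.1, T.symm p.2)) (μ.prod μ)

theorem abstract_main (C : ℕ → Type) [∀ n, Fintype (C n)] (h2 : ∀ n, 2 ≤ Fintype.card (C n))
    (pos : ∀ n, C n → ℤ) (P H : ℕ → ℤ) (Q : ∀ n, Finset (C n × C n))
    (hS : Sep pos P H) (hA : HypA pos) (hB : HypB pos P H Q) : Conclusion := by
  classical
  have hne : ∀ n, NeZero (Fintype.card (C n)) := fun n => ⟨by have := h2 n; omega⟩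
  have hcard : ∀ n, Fintype.card (C n) = Fintype.card (ZMod (Fintype.card (C n))) :=
    fun n => (ZMod.card _).symm
  let _ : ∀ n, AddCommGroup (C n) := fun n => (Fintype.equivOfCardEq (hcard n)).addCommGroup
  let _ : ∀ n, MeasurableSpace (C n) := fun _ => ⊤
  have : ∀ n, DiscreteMeasurableSpace (C n) := fun _ => ⟨fun _ => trivial⟩
  have : NullSingletonClass (lam pos) := noAtoms_lam h2
  have hna : NullSingletonClass (mu pos) := by unfold mu; infer_instance
  refine ⟨Up pos, inferInstance, inferInstance, mu pos, inferInstance, hna, TT hS, ?_, TT_mp hS,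
    fun k _ => ergodic_powers hS hA k, not_ergodic hS hB⟩
  unfold mu
  rw [Measure.restrict_apply_univ]
  exact lam_DD hS

/-- One finite block of the construction. -/
structure IsBlock (C : Type) [Fintype C] (Q : Finset (C × C)) (u e : C → ℤ) (E : ℤ) (η : ℕ)
    (p : Σ k : ℕ, Fin (k + 1)) : Prop where
  two_le : 2 ≤ Fintype.card C
  e_nonneg : ∀ c, 0 ≤ e c
  e_le : ∀ c, e c ≤ E
  inj : Function.Injective u
  compat : ∀ x ∈ Q, ∀ y ∈ Q, u x.1 + u x.2 = u y.1 + u y.2 → e x.1 + e x.2 = e y.1 + e y.2
  small : (Fintype.card (C × C) - Q.card) * η ≤ Fintype.card (C × C)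
  flip : ∃ σ : Equiv.Perm (Fin (p.1 + 1) → C), ∃ A : Finset (Fin (p.1 + 1) → C),
    Fintype.card (Fin (p.1 + 1) → C) ≤ 8 * A.card ∧
    ∀ b ∈ A, ∃ s : ℤ, ∀ j, u (σ b j) = u (b j) + s ∧
      e (σ b j) = e (b j) - (if j = p.2 then 1 else 0)

theorem main_of_blocks
    (hblock : ∀ (p : Σ k : ℕ, Fin (k + 1)) (η : ℕ), ∃ (C : Type) (_ : Fintype C)
      (Q : Finset (C × C)) (u e : C → ℤ) (E : ℤ), IsBlock C Q u e E η p) : Conclusion := by
  classical
  let par : ℕ → (Σ k : ℕ, Fin (k + 1)) := fun n =>
    (Encodable.decode (α := Σ k : ℕ, Fin (k + 1)) (Nat.unpair n).1).getD ⟨0, 0⟩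
  have hpar : ∀ (p : Σ k : ℕ, Fin (k + 1)) (N : ℕ), ∃ n, N ≤ n ∧ par n = p := by
    intro p N
    refine ⟨Nat.pair (Encodable.encode p) N, Nat.right_le_pair _ _, ?_⟩
    simp only [par, Nat.unpair_pair, Encodable.encodek, Option.getD_some]
  choose C hF Q u e E hC using fun n => hblock (par n) (2 ^ (n + 2))
  -- bound for `u`
  have hL : ∀ n, ∃ L : ℤ, 0 ≤ L ∧ ∀ c, |u n c| ≤ L := by
    intro n
    refine ⟨∑ c, |u n c|, Finset.sum_nonneg fun _ _ => abs_nonneg _, fun c => ?_⟩
    exact Finset.single_le_sum (f := fun c => |u n c|) (fun _ _ => abs_nonneg _)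
      (Finset.mem_univ c)
  choose L hL0 hL using hL
  have hE0 : ∀ n, 0 ≤ E n := by
    intro n
    have hne : Nonempty (C n) := by
      rw [← Fintype.card_pos_iff]
      have := (hC n).two_le
      omega
    exact ((hC n).e_nonneg (Classical.arbitrary _)).trans ((hC n).e_le _)
  -- heights
  let H : ℕ → ℤ := fun n => 2 + (n : ℤ) * ∏ j ∈ Finset.range n, (Fintype.card (C j) : ℤ)
  let S : ℕ → ℤ := fun n => Nat.rec (motive := fun _ => ℤ) 0
    (fun n s => s + ((2 * E n + H n + 4 * s) * L n + E n)) n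
  let B : ℕ → ℤ := fun n => 2 * E n + H n + 4 * S n
  let P : ℕ → ℤ := fun n => B n * L n + E n
  have hSs : ∀ n, S (n + 1) = S n + P n := fun n => rfl
  have hS0 : S 0 = 0 := rfl
  have hSsum : ∀ n, ∑ j ∈ Finset.range n, P j = S n := by
    intro n
    induction n with
    | zero => simp [hS0]
    | succ n ih => rw [Finset.sum_range_succ, ih, hSs]
  have hH2 : ∀ n, 2 ≤ H n := by
    intro n
    have : (0 : ℤ) ≤ (n : ℤ) * ∏ j ∈ Finset.range n, (Fintype.card (C j) : ℤ) := by positivity
    simp only [H]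
    linarith
  have hSnn : ∀ n, 0 ≤ S n := by
    intro n
    induction n with
    | zero => rw [hS0]
    | succ n ih =>
      rw [hSs]
      have h1 : 0 ≤ B n := by
        have := hH2 n
        have := hE0 n
        simp only [B]
        linarith
      have := mul_nonneg h1 (hL0 n)
      have := hE0 n
      simp only [P]
      linarith
  have hBnn : ∀ n, 0 ≤ B n := by
    intro n
    have := hH2 n
    have := hE0 n
    have := hSnn n
    simp only [B]
    linarith
  let pos : ∀ n, C n → ℤ := fun n c => B n * u n c + e n c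
  have hdiff : ∀ n (x : ℤ), x ≠ 0 → B n ≤ |B n * x| := by
    intro n x hx
    rw [abs_mul, abs_of_nonneg (hBnn n)]
    have : 1 ≤ |x| := Int.one_le_abs hx
    nlinarith [hBnn n]
  have hSep : Sep pos P H := by
    refine ⟨?_, ?_, hH2, ?_⟩
    · intro n c
      have h1 := hL n c
      have h2 := (hC n).e_nonneg c
      have h3 := (hC n).e_le c
      calc |pos n c| ≤ |B n * u n c| + |e n c| := abs_add_le _ _
        _ = B n * |u n c| + e n c := by
            rw [abs_mul, abs_of_nonneg (hBnn n), abs_of_nonneg h2]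
        _ ≤ B n * L n + E n := add_le_add (mul_le_mul_of_nonneg_left h1 (hBnn n)) h3
    · intro n c c' hcc
      rw [hSsum]
      have hu : u n c - u n c' ≠ 0 := sub_ne_zero.2 fun h => hcc ((hC n).inj h)
      have h1 := hdiff n _ hu
      have h2 := (hC n).e_nonneg c
      have h3 := (hC n).e_le c
      have h4 := (hC n).e_nonneg c'
      have h5 := (hC n).e_le c'
      have h6 : |e n c - e n c'| ≤ E n := by rw [abs_le]; constructor <;> linarith
      have h7 : pos n c - pos n c' = B n * (u n c - u n c') + (e n c - e n c') := by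
        simp only [pos]; ring
      have h8 : |B n * (u n c - u n c')| - |e n c - e n c'| ≤ |pos n c - pos n c'| := by
        rw [h7]
        have := abs_sub_abs_le_abs_sub (B n * (u n c - u n c')) (-(e n c - e n c'))
        rw [abs_neg, sub_neg_eq_add] at this
        exact this
      have h9 := hE0 n
      simp only [B] at h1 h8
      linarith
    · intro n
      simp only [H]
      linarith
  have hHA : HypA pos := by
    intro k i
    obtain ⟨k', rfl⟩ : ∃ k', k = k' + 1 := ⟨k - 1, by have := i.2; omega⟩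
    refine ⟨8⁻¹, by simp, fun N => ?_⟩
    obtain ⟨n, hn, hp⟩ := hpar ⟨k', i⟩ N
    have hf := (hC n).flip
    rw [hp] at hf
    obtain ⟨σ, A, hA, hb⟩ := hf
    refine ⟨n, hn, σ, A, ?_, ?_⟩
    · have hne : Nonempty (C n) := by
        rw [← Fintype.card_pos_iff]
        have := (hC n).two_le
        omega
      have hc0 : (Fintype.card (Fin (k' + 1) → C n) : ℝ≥0∞) ≠ 0 := by
        rw [Nat.cast_ne_zero]; exact Fintype.card_ne_zero
      rw [ENNReal.le_div_iff_mul_le (Or.inl hc0) (Or.inl (ENNReal.natCast_ne_top _)), mul_comm,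
        ← div_eq_mul_inv]
      refine ENNReal.div_le_of_le_mul ?_
      rw [mul_comm]
      exact_mod_cast hA
    · intro b hbA
      obtain ⟨s, hs⟩ := hb b hbA
      refine ⟨B n * s, fun j => ?_⟩
      obtain ⟨h1, h2⟩ := hs j
      simp only [pos]
      rw [h1, h2]
      ring
  have hHB : HypB pos P H Q := by
    refine ⟨fun n => (hC n).small, ?_⟩
    intro n x hx y hy hne
    rw [hSsum]
    have hd : (pos n x.1 + pos n x.2) - (pos n y.1 + pos n y.2) =
        B n * ((u n x.1 + u n x.2) - (u n y.1 + u n y.2)) +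
          ((e n x.1 + e n x.2) - (e n y.1 + e n y.2)) := by
      simp only [pos]; ring
    have hu : (u n x.1 + u n x.2) - (u n y.1 + u n y.2) ≠ 0 := by
      intro h0
      have h1 := (hC n).compat x hx y hy (sub_eq_zero.1 h0)
      apply hne
      rw [hd, h0, h1]
      ring
    have h1 := hdiff n _ hu
    have a1 := (hC n).e_nonneg x.1
    have a2 := (hC n).e_nonneg x.2
    have a3 := (hC n).e_nonneg y.1
    have a4 := (hC n).e_nonneg y.2
    have b1 := (hC n).e_le x.1
    have b2 := (hC n).e_le x.2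
    have b3 := (hC n).e_le y.1
    have b4 := (hC n).e_le y.2
    have h6 : |(e n x.1 + e n x.2) - (e n y.1 + e n y.2)| ≤ 2 * E n := by
      rw [abs_le]; constructor <;> linarith
    have h8 : |B n * ((u n x.1 + u n x.2) - (u n y.1 + u n y.2))| -
        |(e n x.1 + e n x.2) - (e n y.1 + e n y.2)| ≤
        |(pos n x.1 + pos n x.2) - (pos n y.1 + pos n y.2)| := by
      rw [hd]
      have := abs_sub_abs_le_abs_sub (B n * ((u n x.1 + u n x.2) - (u n y.1 + u n y.2)))
        (-((e n x.1 + e n x.2) - (e n y.1 + e n y.2)))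
      rw [abs_neg, sub_neg_eq_add] at this
      exact this
    simp only [B] at h1 h8
    linarith
  exact abstract_main C (fun n => (hC n).two_le) pos P H Q hSep hHA hHB

end Pool.Agent.MP335725
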