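import Mathlib

/-!
Auxiliary combinatorial lemmas.
-/

set_option autoImplicit false

open Finset

namespace Pool.Agent.MP335725

theorem exists_hom {V : Type} [AddCommGroup V]
    (hsep : ∀ x : V, x ≠ 0 → ∃ ψ : V →+ ℤ, ψ x ≠ 0) (F : Finset V) (hF : ∀ x ∈ F, x ≠ 0) :
    ∃ ψ : V →+ ℤ, ∀ x ∈ F, ψ x ≠ 0 := by
  classical
  induction F using Finset.induction_on with
  | empty => exact ⟨0, by simp⟩
  | insert x₀ F hx₀ ih =>
    obtain ⟨ψ₁, h₁⟩ := ih (fun x hx => hF x (Finset.mem_insert_of_mem hx))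
    obtain ⟨ψ₂, h₂⟩ := hsep x₀ (hF x₀ (Finset.mem_insert_self _ _))
    obtain ⟨t, ht⟩ : ∃ t : ℤ, ∀ x ∈ insert x₀ F, |ψ₁ x| < t := by
      refine ⟨1 + ∑ x ∈ insert x₀ F, |ψ₁ x|, fun x hx => ?_⟩
      have := Finset.single_le_sum (f := fun x => |ψ₁ x|) (fun _ _ => abs_nonneg _) hx
      linarith
    refine ⟨ψ₁ + t • ψ₂, ?_⟩
    intro x hx h0
    have h3 : ψ₁ x + t * ψ₂ x = 0 := by simpa using h0
    have hlt := ht x hx
    by_cases h : ψ₂ x = 0
    · rw [h, mul_zero, add_zero] at h3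
      rcases Finset.mem_insert.1 hx with h4 | h4
      · rw [h4] at h; exact h₂ h
      · exact h₁ x h4 h3
    · have h5 : 1 ≤ |ψ₂ x| := Int.one_le_abs h
      have h6 : ψ₁ x = -(t * ψ₂ x) := by linarith
      have ht0 : 0 < t := lt_of_le_of_lt (abs_nonneg _) hlt
      rw [h6, abs_neg, abs_mul, abs_of_pos ht0] at hlt
      nlinarith

theorem card_piFinset_update {N : ℕ} {U : Type} [DecidableEq U] (G β : Finset U) (t : Fin N) :
    (Fintype.piFinset (Function.update (fun _ : Fin N => G) t β)).card =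
      β.card * G.card ^ (N - 1) := by
  classical
  rw [Fintype.card_piFinset]
  have h1 : ∀ i, (Function.update (fun _ : Fin N => G) t β i).card =
      Function.update (fun _ : Fin N => G.card) t β.card i := by
    intro i
    by_cases h : i = t
    · subst h; simp
    · simp [h]
  simp_rw [h1]
  rw [Finset.prod_update_of_mem (Finset.mem_univ t), Finset.prod_const]
  congr 2
  rw [Finset.card_sdiff_of_subset (Finset.subset_univ _)]
  simp

theorem mem_piFinset_update {N : ℕ} {U : Type} [DecidableEq U] (G β : Finset U) (t : Fin N)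
    (x : Fin N → U) :
    x ∈ Fintype.piFinset (Function.update (fun _ : Fin N => G) t β) ↔
      x t ∈ β ∧ ∀ t', t' ≠ t → x t' ∈ G := by
  rw [Fintype.mem_piFinset]
  constructor
  · intro h
    refine ⟨by simpa using h t, fun t' ht' => ?_⟩
    simpa [ht'] using h t'
  · rintro ⟨h1, h2⟩ i
    by_cases h : i = t
    · subst h; simpa using h1
    · simpa [h] using h2 i h

theorem flip_exists {U : Type} [Fintype U] [DecidableEq U] (β : Finset U) (φ : U → U)
    (hφ : Set.InjOn φ β) (N : ℕ) :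
    ∃ (σ : Equiv.Perm (Fin N → U)) (A : Finset (Fin N → U)),
      N * (β.card * (Fintype.card U - 2 * β.card) ^ (N - 1)) ≤ A.card ∧
      ∀ x ∈ A, ∃ t, x t ∈ β ∧ σ x = Function.update x t (φ (x t)) := by
  classical
  set γ : Finset U := β ∪ β.image φ with hγ
  set A' : Fin N → Finset (Fin N → U) := fun t =>
    Fintype.piFinset (Function.update (fun _ : Fin N => γᶜ) t β) with hA'
  set A : Finset (Fin N → U) := Finset.univ.biUnion A' with hA
  have hmem : ∀ x, x ∈ A ↔ ∃ t, x t ∈ β ∧ ∀ t', t' ≠ t → x t' ∉ γ := by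
    intro x
    simp only [hA, hA', Finset.mem_biUnion, Finset.mem_univ, true_and, mem_piFinset_update,
      Finset.mem_compl]
  have hγcard : Fintype.card U - 2 * β.card ≤ γᶜ.card := by
    rw [Finset.card_compl]
    have h1 : γ.card ≤ β.card + (β.image φ).card := Finset.card_union_le _ _
    have h2 : (β.image φ).card ≤ β.card := Finset.card_image_le
    omega
  have hdisj : ∀ t ∈ (Finset.univ : Finset (Fin N)), ∀ t' ∈ (Finset.univ : Finset (Fin N)),
      t ≠ t' → Disjoint (A' t) (A' t') := by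
    intro t _ t' _ htt
    rw [Finset.disjoint_left]
    intro x hx hx'
    rw [hA', mem_piFinset_update] at hx hx'
    have h1 := hx'.2 t htt
    rw [Finset.mem_compl] at h1
    exact h1 (Finset.mem_union_left _ hx.1)
  have hcard : A.card = ∑ t : Fin N, β.card * γᶜ.card ^ (N - 1) := by
    rw [hA, Finset.card_biUnion hdisj]
    refine Finset.sum_congr rfl fun t _ => ?_
    rw [hA', card_piFinset_update]
  choose tt htt using fun x : {x // x ∈ A} => (hmem x.1).1 x.2
  let g : {x // x ∈ A} → (Fin N → U) := fun x =>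
    Function.update x.1 (tt x) (φ (x.1 (tt x)))
  have hg : Function.Injective g := by
    intro x x' h
    have h : Function.update x.1 (tt x) (φ (x.1 (tt x))) =
      Function.update x'.1 (tt x') (φ (x'.1 (tt x'))) := h
    obtain ⟨h1, h2⟩ := htt x
    obtain ⟨h3, h4⟩ := htt x'
    have htt' : tt x = tt x' := by
      by_contra hne
      have h5 := congrFun h (tt x)
      rw [Function.update_self, Function.update_of_ne hne] at h5
      apply h4 (tt x) hne
      rw [← h5]
      exact Finset.mem_union_right _ (Finset.mem_image_of_mem _ h1)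
    rw [← htt'] at h h3 h4
    have h6 : x.1 (tt x) = x'.1 (tt x) := by
      have h5 := congrFun h (tt x)
      rw [Function.update_self, Function.update_self] at h5
      exact hφ h1 h3 h5
    apply Subtype.ext
    funext i
    by_cases hi : i = tt x
    · rw [hi, h6]
    · have h5 := congrFun h i
      rw [Function.update_of_ne hi, Function.update_of_ne hi] at h5
      exact h5
  obtain ⟨σ, hσ⟩ := Equiv.Perm.exists_extending_pair (fun x : {x // x ∈ A} => x.1) g
    Subtype.val_injective hg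
  refine ⟨σ, A, ?_, ?_⟩
  · rw [hcard, Finset.sum_const, Finset.card_univ, Fintype.card_fin, smul_eq_mul]
    exact Nat.mul_le_mul_left _ (Nat.mul_le_mul_left _ (Nat.pow_le_pow_left hγcard _))
  · intro x hx
    exact ⟨tt ⟨x, hx⟩, (htt ⟨x, hx⟩).1, hσ ⟨x, hx⟩⟩

/-- Numerical estimate. -/
theorem flip_count (X y N : ℕ) (hN : 1 ≤ N) (h2 : 2 * y ≤ X) (h1 : X ≤ 4 * y * N)
    (h3 : 4 * y * (N - 1) ≤ X) : X ^ N ≤ 8 * (N * (y * (X - 2 * y) ^ (N - 1))) := by
  obtain ⟨n, rfl⟩ : ∃ n, N = n + 1 := ⟨N - 1, by omega⟩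
  rw [Nat.add_sub_cancel] at h3 ⊢
  rcases Nat.eq_zero_or_pos X with hX | hX
  · subst hX
    simp
  have hXr : (0 : ℝ) < X := by exact_mod_cast hX
  have hb : (X : ℝ) ^ n ≤ 2 * ((X : ℝ) - 2 * y) ^ n := by
    have h4 : (-2 : ℝ) ≤ -(2 * y / X) := by
      have : (2 * y : ℝ) / X ≤ 1 := by
        rw [div_le_one hXr]; exact_mod_cast h2
      linarith
    have h5 := one_add_mul_le_pow h4 n
    have h6 : (n : ℝ) * (2 * y / X) ≤ 1 / 2 := by
      have : (4 * y * n : ℝ) ≤ X := by exact_mod_cast h3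
      rw [mul_div_assoc', div_le_iff₀ hXr]
      linarith
    have h7 : (1 : ℝ) / 2 ≤ (1 + -(2 * y / X)) ^ n := by linarith
    have h8 : (X : ℝ) - 2 * y = X * (1 + -(2 * y / X)) := by
      field_simp
      ring
    rw [h8, mul_pow]
    have h9 : (0 : ℝ) < (X : ℝ) ^ n := pow_pos hXr n
    nlinarith
  have hcast : ((X - 2 * y : ℕ) : ℝ) = (X : ℝ) - 2 * y := by
    rw [Nat.cast_sub h2]; push_cast; ring
  have h10 : (X : ℝ) ≤ 4 * y * (n + 1) := by exact_mod_cast h1
  have h11 : (0 : ℝ) ≤ ((X : ℝ) - 2 * y) ^ n := by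
    rw [← hcast]; positivity
  have : ((X ^ (n + 1) : ℕ) : ℝ) ≤ ((8 * ((n + 1) * (y * (X - 2 * y) ^ n)) : ℕ) : ℝ) := by
    push_cast
    rw [hcast, pow_succ]
    calc (X : ℝ) ^ n * X ≤ (2 * ((X : ℝ) - 2 * y) ^ n) * (4 * y * (n + 1)) :=
          mul_le_mul hb h10 hXr.le (by positivity)
      _ = 8 * ((n + 1) * (y * ((X : ℝ) - 2 * y) ^ n)) := by ring
  exact_mod_cast this

end Pool.Agent.MP335725
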