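import Mathlib
import Pool.Agent.Lib.MP_335725_an.CombAux
import Pool.Agent.Lib.MP_335725_an.Abstract

/-!
The finite combinatorial block.
-/

set_option autoImplicit false

open Finset

namespace Pool.Agent.MP335725

/-- positions and levels -/
abbrev Vec (r : ℕ) : Type := (Fin r → ℤ) × ℤ

/-- the cube -/
noncomputable def Kf (r M : ℕ) : Finset (Fin r → ℤ) := Fintype.piFinset fun _ => Finset.Icc (-(M : ℤ)) M

/-- the small set of differences -/
noncomputable def Bf (r M : ℕ) : Finset (Fin r → ℤ) :=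
  (Fintype.piFinset fun _ => Finset.Icc (-(2 * M : ℤ)) (2 * M)).filter (fun i => ∃ w, i w = 0)

theorem card_Kf (r M : ℕ) : (Kf r M).card = (2 * M + 1) ^ r := by
  unfold Kf
  rw [Fintype.card_piFinset_const, Int.card_Icc]
  congr 1
  omega

theorem card_Bf (r M : ℕ) : (Bf r M).card ≤ r * (4 * M + 1) ^ (r - 1) := by
  classical
  have hsub : Bf r M ⊆ Finset.univ.biUnion fun w : Fin r =>
      Fintype.piFinset (Function.update
        (fun _ : Fin r => Finset.Icc (-(2 * M : ℤ)) (2 * M)) w {0}) := by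
    intro i hi
    rw [Bf, Finset.mem_filter] at hi
    obtain ⟨h1, w, hw⟩ := hi
    rw [Finset.mem_biUnion]
    refine ⟨w, Finset.mem_univ _, ?_⟩
    rw [mem_piFinset_update]
    exact ⟨by simp [hw], fun t' _ => (Fintype.mem_piFinset.1 h1) t'⟩
  refine (Finset.card_le_card hsub).trans (Finset.card_biUnion_le.trans ?_)
  simp_rw [card_piFinset_update]
  rw [Finset.sum_const, Finset.card_univ, Fintype.card_fin, smul_eq_mul, Finset.card_singleton,
    one_mul, Int.card_Icc]
  have : (2 * (M : ℤ) + 1 - -(2 * M)).toNat = 4 * M + 1 := by omega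
  rw [this]

theorem exists_M (r D : ℕ) : ∃ M, D * (Bf r M).card ≤ (Kf r M).card := by
  rcases Nat.eq_zero_or_pos r with hr | hr
  · subst hr
    refine ⟨0, ?_⟩
    have h := card_Bf 0 0
    rw [zero_mul, Nat.le_zero] at h
    rw [h]
    simp
  · obtain ⟨q, rfl⟩ : ∃ q, r = q + 1 := ⟨r - 1, by omega⟩
    refine ⟨D * (q + 1) * 2 ^ q, ?_⟩
    set M := D * (q + 1) * 2 ^ q with hM
    rw [card_Kf]
    have h := card_Bf (q + 1) M
    rw [Nat.add_sub_cancel] at h
    calc D * (Bf (q + 1) M).card ≤ D * ((q + 1) * (4 * M + 1) ^ q) := Nat.mul_le_mul_left _ h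
      _ ≤ D * ((q + 1) * (2 * (2 * M + 1)) ^ q) := by
          gcongr
          omega
      _ = M * (2 * M + 1) ^ q := by rw [hM, mul_pow]; ring
      _ ≤ (2 * M + 1) * (2 * M + 1) ^ q := by
          gcongr
          omega
      _ = (2 * M + 1) ^ (q + 1) := by rw [pow_succ]; ring

/-- the positions -/
noncomputable def Sub (r M : ℕ) : Finset (Vec r) :=
  (Kf r M ×ˢ {0} ∪ Bf r M ×ˢ {-1}) ∪ {(0, 1)}

theorem mem_Sub {r M : ℕ} {x : Vec r} : x ∈ Sub r M ↔
    (x.1 ∈ Kf r M ∧ x.2 = 0) ∨ (x.1 ∈ Bf r M ∧ x.2 = -1) ∨ (x.1 = 0 ∧ x.2 = 1) := by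
  unfold Sub
  rw [Finset.mem_union, Finset.mem_union, Finset.mem_product, Finset.mem_product,
    Finset.mem_singleton, Finset.mem_singleton, Finset.mem_singleton, Prod.ext_iff, or_assoc]

theorem zero_mem_Kf (r M : ℕ) : (0 : Fin r → ℤ) ∈ Kf r M := by
  unfold Kf
  rw [Fintype.mem_piFinset]
  intro _
  rw [Finset.mem_Icc]
  constructor
  · simp
  · simp

theorem card_Sub_le (r M : ℕ) : (Sub r M).card ≤ (Kf r M).card + (Bf r M).card + 1 := by
  unfold Sub
  refine (Finset.card_union_le _ _).trans ?_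
  rw [Finset.card_singleton]
  refine Nat.add_le_add_right ((Finset.card_union_le _ _).trans ?_) 1
  rw [Finset.card_product, Finset.card_product, Finset.card_singleton, Finset.card_singleton]
  simp

section SubType

variable {r M : ℕ}

theorem level_cases (s : {x // x ∈ Sub r M}) : s.1.2 = 0 ∨ s.1.2 = -1 ∨ s.1.2 = 1 := by
  rcases mem_Sub.1 s.2 with h | h | h
  · exact Or.inl h.2
  · exact Or.inr (Or.inl h.2)
  · exact Or.inr (Or.inr h.2)

theorem mem_Kf_of_level {s : {x // x ∈ Sub r M}} (h : s.1.2 = 0) : s.1.1 ∈ Kf r M := by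
  rcases mem_Sub.1 s.2 with h' | h' | h'
  · exact h'.1
  · rw [h] at h'; exact absurd h'.2 (by norm_num)
  · rw [h] at h'; exact absurd h'.2 (by norm_num)

theorem mem_Bf_of_level {s : {x // x ∈ Sub r M}} (h : s.1.2 = -1) : s.1.1 ∈ Bf r M := by
  rcases mem_Sub.1 s.2 with h' | h' | h'
  · rw [h] at h'; exact absurd h'.2 (by norm_num)
  · exact h'.1
  · rw [h] at h'; exact absurd h'.2 (by norm_num)

theorem eq_zero_of_level {s : {x // x ∈ Sub r M}} (h : s.1.2 = 1) : s.1.1 = 0 := by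
  rcases mem_Sub.1 s.2 with h' | h' | h'
  · rw [h] at h'; exact absurd h'.2 (by norm_num)
  · rw [h] at h'; exact absurd h'.2 (by norm_num)
  · exact h'.1

variable (r M)

/-- the special element -/
noncomputable def star : {x // x ∈ Sub r M} := ⟨(0, 1), mem_Sub.2 (Or.inr (Or.inr ⟨rfl, rfl⟩))⟩

/-- elements of a given level -/
noncomputable def lev (ℓ : ℤ) : Finset {x // x ∈ Sub r M} := Finset.univ.filter fun s => s.1.2 = ℓ

theorem mem_lev {ℓ : ℤ} {s : {x // x ∈ Sub r M}} : s ∈ lev r M ℓ ↔ s.1.2 = ℓ := by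
  simp [lev]

theorem card_lev_zero : (Kf r M).card ≤ (lev r M 0).card := by
  classical
  have h : Kf r M ⊆ (lev r M 0).image fun s => s.1.1 := by
    intro i hi
    rw [Finset.mem_image]
    exact ⟨⟨(i, 0), mem_Sub.2 (Or.inl ⟨hi, rfl⟩)⟩, (mem_lev r M).2 rfl, rfl⟩
  exact (Finset.card_le_card h).trans Finset.card_image_le

theorem card_lev_neg : (lev r M (-1)).card ≤ (Bf r M).card := by
  classical
  refine Finset.card_le_card_of_injOn (fun s => s.1.1) ?_ ?_
  · intro s hs
    exact mem_Bf_of_level ((mem_lev r M).1 hs)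
  · intro s hs s' hs' h
    have h1 := (mem_lev r M).1 hs
    have h2 := (mem_lev r M).1 hs'
    exact Subtype.ext (Prod.ext h (h1.trans h2.symm))

theorem card_lev_one : (lev r M 1).card ≤ 1 := by
  rw [Finset.card_le_one]
  intro s hs s' hs'
  have h1 := (mem_lev r M).1 hs
  have h2 := (mem_lev r M).1 hs'
  exact Subtype.ext (Prod.ext ((eq_zero_of_level h1).trans (eq_zero_of_level h2).symm)
    (h1.trans h2.symm))

theorem two_le_card_Sub : 2 ≤ Fintype.card {x // x ∈ Sub r M} := by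
  have h : (⟨(0, 0), mem_Sub.2 (Or.inl ⟨zero_mem_Kf r M, rfl⟩)⟩ : {x // x ∈ Sub r M}) ≠
      star r M := by
    intro h
    have := congrArg (fun s : {x // x ∈ Sub r M} => s.1.2) h
    simp [star] at this
  exact Fintype.one_lt_card_iff.2 ⟨_, _, h⟩

/-- the useful tuples -/
noncomputable def beta (i₀ : Fin (r + 1)) : Finset (Fin (r + 1) → {x // x ∈ Sub r M}) :=
  Fintype.piFinset (Function.update (fun _ => lev r M 0) i₀ {star r M})

theorem card_beta (i₀ : Fin (r + 1)) : (beta r M i₀).card = (lev r M 0).card ^ r := by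
  unfold beta
  rw [card_piFinset_update, Finset.card_singleton, one_mul, Nat.add_sub_cancel]

variable {r M}

theorem mem_beta {i₀ : Fin (r + 1)} {γ : Fin (r + 1) → {x // x ∈ Sub r M}} :
    γ ∈ beta r M i₀ ↔ γ i₀ = star r M ∧ ∀ j, j ≠ i₀ → (γ j).1.2 = 0 := by
  unfold beta
  rw [mem_piFinset_update, Finset.mem_singleton]
  simp_rw [mem_lev]

/-- the shift vector -/
def shiftVec (i₀ : Fin (r + 1)) (γ : Fin (r + 1) → {x // x ∈ Sub r M}) : Vec r :=
  (fun w => -(γ (i₀.succAbove w)).1.1 w, -1)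

theorem exists_phi (i₀ : Fin (r + 1)) (γ : Fin (r + 1) → {x // x ∈ Sub r M}) :
    ∃ δ : Fin (r + 1) → {x // x ∈ Sub r M}, γ ∈ beta r M i₀ →
      ∀ j, (δ j).1 = (γ j).1 + shiftVec i₀ γ := by
  by_cases hγ : γ ∈ beta r M i₀
  · rw [mem_beta] at hγ
    obtain ⟨h0, h1⟩ := hγ
    have hK : ∀ w : Fin r, ∀ w', (γ (i₀.succAbove w)).1.1 w' ∈ Finset.Icc (-(M : ℤ)) M := by
      intro w w'
      have h2 := mem_Kf_of_level (h1 (i₀.succAbove w) (Fin.succAbove_ne i₀ w))
      exact (Fintype.mem_piFinset.1 h2) w'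
    have hmem : ∀ j, (γ j).1 + shiftVec i₀ γ ∈ Sub r M := by
      intro j
      rw [mem_Sub]
      by_cases hj : j = i₀
      · left
        subst hj
        rw [h0]
        refine ⟨?_, ?_⟩
        · unfold Kf
          rw [Fintype.mem_piFinset]
          intro w
          have h3 := Finset.mem_Icc.1 (hK w w)
          simp only [star, shiftVec, Prod.fst_add, Pi.add_apply, Pi.zero_apply, zero_add,
            Finset.mem_Icc]
          omega
        · simp [star, shiftVec]
      · right; left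
        obtain ⟨w, hw⟩ := Fin.exists_succAbove_eq hj
        refine ⟨?_, ?_⟩
        · rw [Bf, Finset.mem_filter, Fintype.mem_piFinset]
          refine ⟨fun w' => ?_, w, ?_⟩
          · have h3 := Finset.mem_Icc.1 (hK w w')
            have h4 := Finset.mem_Icc.1 (hK w' w')
            rw [← hw]
            simp only [shiftVec, Prod.fst_add, Pi.add_apply, Finset.mem_Icc]
            omega
          · rw [← hw]
            simp [shiftVec]
        · have := h1 j hj
          simp only [Prod.snd_add, shiftVec, this]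
          norm_num
    exact ⟨fun j => ⟨_, hmem j⟩, fun _ j => rfl⟩
  · exact ⟨γ, fun h => absurd h hγ⟩

theorem exists_phi' (i₀ : Fin (r + 1)) :
    ∃ φ : (Fin (r + 1) → {x // x ∈ Sub r M}) → (Fin (r + 1) → {x // x ∈ Sub r M}),
      (∀ γ ∈ beta r M i₀, ∀ j, (φ γ j).1 = (γ j).1 + shiftVec i₀ γ) ∧
      Set.InjOn φ (beta r M i₀) := by
  choose φ hφ using fun γ : Fin (r + 1) → {x // x ∈ Sub r M} => exists_phi i₀ γ
  refine ⟨φ, hφ, ?_⟩
  intro γ hγ γ' hγ' h
  have h1 := hφ γ hγ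
  have h2 := hφ γ' hγ'
  have h3 : (γ i₀).1 = (γ' i₀).1 := by
    rw [(mem_beta.1 hγ).1, (mem_beta.1 hγ').1]
  have h4 : shiftVec i₀ γ = shiftVec i₀ γ' := by
    have h5 := h1 i₀
    rw [h, h2 i₀, h3] at h5
    exact (add_left_cancel h5).symm
  funext j
  apply Subtype.ext
  have h5 := h1 j
  rw [h, h2 j, h4] at h5
  exact (add_right_cancel h5).symm

end SubType

theorem vec_sep {N r : ℕ} (x : Fin N → Vec r) (hx : x ≠ 0) :
    ∃ ψ : (Fin N → Vec r) →+ ℤ, ψ x ≠ 0 := by
  obtain ⟨t, ht⟩ := Function.ne_iff.1 hx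
  by_cases h2 : (x t).2 = 0
  · have h1 : (x t).1 ≠ 0 := by
      intro h1
      exact ht (Prod.ext h1 h2)
    obtain ⟨w, hw⟩ := Function.ne_iff.1 h1
    exact ⟨((Pi.evalAddMonoidHom (fun _ : Fin r => ℤ) w).comp
      (AddMonoidHom.fst (Fin r → ℤ) ℤ)).comp (Pi.evalAddMonoidHom (fun _ : Fin N => Vec r) t),
      hw⟩
  · exact ⟨(AddMonoidHom.snd (Fin r → ℤ) ℤ).comp
      (Pi.evalAddMonoidHom (fun _ : Fin N => Vec r) t), h2⟩

end Pool.Agent.MP335725
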