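import Mathlib
import Pool.Agent.Lib.MP_335725_an.Block

/-!
Existence of the finite combinatorial block.
-/

set_option autoImplicit false

open Finset

namespace Pool.Agent.MP335725

section

variable {r M N : ℕ}

/-- The alphabet. -/
abbrev Alph (r M N : ℕ) : Type := Fin N → {x // x ∈ Sub r M}

/-- vector of positions -/
def vec (c : Alph r M N) : Fin N → Vec r := fun t => (c t).1

/-- the correction term -/
def err (c : Alph r M N) : ℤ := ∑ t, max (c t).1.2 0

/-- bad pairs of levels -/
def badPair (s s' : {x // x ∈ Sub r M}) : Prop :=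
  (s.1.2 = -1 ∧ s'.1.2 = 1) ∨ (s.1.2 = 1 ∧ s'.1.2 = -1)

open Classical in
variable (r M N) in
/-- the good pairs -/
noncomputable def QQ : Finset (Alph r M N × Alph r M N) :=
  Finset.univ.filter fun p => ∀ t, ¬ badPair (p.1 t) (p.2 t)

theorem mem_QQ {p : Alph r M N × Alph r M N} :
    p ∈ QQ r M N ↔ ∀ t, ¬ badPair (p.1 t) (p.2 t) := by
  classical
  unfold QQ
  refine Finset.mem_filter.trans ?_
  exact ⟨fun h => h.2, fun h => ⟨Finset.mem_univ _, h⟩⟩

theorem err_nonneg (c : Alph r M N) : 0 ≤ err c :=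
  Finset.sum_nonneg fun _ _ => le_max_right _ _

theorem err_le (c : Alph r M N) : err c ≤ N := by
  unfold err
  have h : ∀ t, max (c t).1.2 0 ≤ 1 := by
    intro t
    rcases level_cases (c t) with h | h | h <;> rw [h] <;> norm_num
  calc ∑ t, max (c t).1.2 0 ≤ ∑ _t : Fin N, (1 : ℤ) := Finset.sum_le_sum fun t _ => h t
    _ = N := by simp

theorem vec_injective : Function.Injective (vec : Alph r M N → Fin N → Vec r) := by
  intro c c' h
  funext t
  exact Subtype.ext (congrFun h t)

theorem err_compat {x y : Alph r M N × Alph r M N} (hx : x ∈ QQ r M N) (hy : y ∈ QQ r M N)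
    (h : vec x.1 + vec x.2 = vec y.1 + vec y.2) : err x.1 + err x.2 = err y.1 + err y.2 := by
  unfold err
  rw [← Finset.sum_add_distrib, ← Finset.sum_add_distrib]
  refine Finset.sum_congr rfl fun t _ => ?_
  have h1 : (x.1 t).1.2 + (x.2 t).1.2 = (y.1 t).1.2 + (y.2 t).1.2 :=
    congrArg Prod.snd (congrFun h t)
  have h2 := mem_QQ.1 hx t
  have h3 := mem_QQ.1 hy t
  unfold badPair at h2 h3
  have c1 := level_cases (x.1 t)
  have c2 := level_cases (x.2 t)
  have c3 := level_cases (y.1 t)
  have c4 := level_cases (y.2 t)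
  omega

theorem card_bad :
    (Fintype.card (Alph r M N × Alph r M N) - (QQ r M N).card) ≤
      N * (2 * ((Bf r M).card * (Fintype.card {x // x ∈ Sub r M} ^ (N - 1)) ^ 2)) := by
  classical
  set S := {x // x ∈ Sub r M} with hS
  let Xm : Fin N → Finset (Alph r M N) := fun t =>
    Fintype.piFinset (Function.update (fun _ => Finset.univ) t (lev r M (-1)))
  let Xp : Fin N → Finset (Alph r M N) := fun t =>
    Fintype.piFinset (Function.update (fun _ => Finset.univ) t (lev r M 1))
  have hsub : (QQ r M N)ᶜ ⊆ Finset.univ.biUnion fun t => (Xm t ×ˢ Xp t) ∪ (Xp t ×ˢ Xm t) := by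
    intro p hp
    rw [Finset.mem_compl, mem_QQ] at hp
    push Not at hp
    obtain ⟨t, ht⟩ := hp
    rw [Finset.mem_biUnion]
    refine ⟨t, Finset.mem_univ _, ?_⟩
    rw [Finset.mem_union, Finset.mem_product, Finset.mem_product]
    rcases ht with ⟨h1, h2⟩ | ⟨h1, h2⟩
    · left
      constructor
      · rw [mem_piFinset_update]
        exact ⟨(mem_lev r M).2 h1, fun _ _ => Finset.mem_univ _⟩
      · rw [mem_piFinset_update]
        exact ⟨(mem_lev r M).2 h2, fun _ _ => Finset.mem_univ _⟩
    · right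
      constructor
      · rw [mem_piFinset_update]
        exact ⟨(mem_lev r M).2 h1, fun _ _ => Finset.mem_univ _⟩
      · rw [mem_piFinset_update]
        exact ⟨(mem_lev r M).2 h2, fun _ _ => Finset.mem_univ _⟩
  rw [← Finset.card_compl]
  refine (Finset.card_le_card hsub).trans (Finset.card_biUnion_le.trans ?_)
  have hm : ∀ t, (Xm t).card ≤ (Bf r M).card * Fintype.card S ^ (N - 1) := by
    intro t
    simp only [Xm]
    rw [card_piFinset_update, Finset.card_univ]
    exact Nat.mul_le_mul_right _ (card_lev_neg r M)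
  have hp : ∀ t, (Xp t).card ≤ Fintype.card S ^ (N - 1) := by
    intro t
    simp only [Xp]
    rw [card_piFinset_update, Finset.card_univ]
    calc (lev r M 1).card * Fintype.card S ^ (N - 1) ≤ 1 * Fintype.card S ^ (N - 1) :=
          Nat.mul_le_mul_right _ (card_lev_one r M)
      _ = _ := one_mul _
  have hterm : ∀ t ∈ (Finset.univ : Finset (Fin N)), ((Xm t ×ˢ Xp t) ∪ (Xp t ×ˢ Xm t)).card ≤
      2 * ((Bf r M).card * (Fintype.card S ^ (N - 1)) ^ 2) := by
    intro t _
    refine (Finset.card_union_le _ _).trans ?_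
    rw [Finset.card_product, Finset.card_product]
    have h1 := Nat.mul_le_mul (hm t) (hp t)
    have h2 := Nat.mul_le_mul (hp t) (hm t)
    calc (Xm t).card * (Xp t).card + (Xp t).card * (Xm t).card
        ≤ (Bf r M).card * Fintype.card S ^ (N - 1) * Fintype.card S ^ (N - 1) +
          Fintype.card S ^ (N - 1) * ((Bf r M).card * Fintype.card S ^ (N - 1)) :=
          Nat.add_le_add h1 h2
      _ = 2 * ((Bf r M).card * (Fintype.card S ^ (N - 1)) ^ 2) := by ring
  refine (Finset.sum_le_sum hterm).trans ?_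
  rw [Finset.sum_const, Finset.card_univ, Fintype.card_fin, smul_eq_mul]

theorem exists_psi : ∃ ψ : (Fin N → Vec r) →+ ℤ,
    (∀ c c' : Alph r M N, ψ (vec c) = ψ (vec c') → c = c') ∧
    (∀ x y : Alph r M N × Alph r M N, ψ (vec x.1) + ψ (vec x.2) = ψ (vec y.1) + ψ (vec y.2) →
      vec x.1 + vec x.2 = vec y.1 + vec y.2) := by
  classical
  let F1 : Finset (Fin N → Vec r) :=
    (Finset.univ : Finset (Alph r M N × Alph r M N)).image fun p => vec p.1 - vec p.2
  let F2 : Finset (Fin N → Vec r) :=
    (Finset.univ : Finset ((Alph r M N × Alph r M N) × (Alph r M N × Alph r M N))).image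
      fun p => (vec p.1.1 + vec p.1.2) - (vec p.2.1 + vec p.2.2)
  obtain ⟨ψ, hψ⟩ := exists_hom (V := Fin N → Vec r) vec_sep ((F1 ∪ F2).erase 0)
    (fun x hx => Finset.ne_of_mem_erase hx)
  refine ⟨ψ, ?_, ?_⟩
  · intro c c' h
    apply vec_injective
    by_contra hne
    have h1 : vec c - vec c' ∈ (F1 ∪ F2).erase 0 := by
      rw [Finset.mem_erase]
      refine ⟨sub_ne_zero.2 hne, Finset.mem_union_left _ ?_⟩
      exact Finset.mem_image.2 ⟨(c, c'), Finset.mem_univ _, rfl⟩
    apply hψ _ h1
    rw [map_sub, h, sub_self]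
  · intro x y h
    by_contra hne
    have h1 : (vec x.1 + vec x.2) - (vec y.1 + vec y.2) ∈ (F1 ∪ F2).erase 0 := by
      rw [Finset.mem_erase]
      refine ⟨sub_ne_zero.2 hne, Finset.mem_union_right _ ?_⟩
      exact Finset.mem_image.2 ⟨(x, y), Finset.mem_univ _, rfl⟩
    apply hψ _ h1
    rw [map_sub, map_add, map_add, h, sub_self]

end

theorem block_exists (p : Σ k : ℕ, Fin (k + 1)) (η : ℕ) : ∃ (C : Type) (_ : Fintype C)
    (Q : Finset (C × C)) (u e : C → ℤ) (E : ℤ), IsBlock C Q u e E η p := by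
  classical
  obtain ⟨r, i₀⟩ := p
  obtain ⟨M, hM⟩ := exists_M r (2 ^ (r + 2) * η + 2)
  set K := (Kf r M).card with hK
  set b := (Bf r M).card with hb
  have hKpos : 1 ≤ K := Finset.card_pos.2 ⟨0, zero_mem_Kf r M⟩
  set S := Fintype.card {x // x ∈ Sub r M} with hSdef
  have hS2 : 2 ≤ S := two_le_card_Sub r M
  have hSK : S ≤ 2 * K := by
    have h1 : S ≤ K + b + 1 := by
      rw [hSdef, Fintype.card_coe]
      exact card_Sub_le r M
    have h2 : 2 * b ≤ K := le_trans (Nat.mul_le_mul_right _ (by omega)) hM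
    omega
  have hKS : K ≤ S := (card_lev_zero r M).trans (Finset.card_le_univ _)
  obtain ⟨φ, hφ, hφinj⟩ := exists_phi' (r := r) (M := M) i₀
  set y := (beta r M i₀).card with hy
  have hyK : K ^ r ≤ y := by
    rw [hy, card_beta]
    exact Nat.pow_le_pow_left (card_lev_zero r M) r
  have hypos : 1 ≤ y := le_trans (Nat.one_le_pow _ _ hKpos) hyK
  have hyS : 2 * y ≤ S ^ (r + 1) := by
    rw [hy, card_beta, pow_succ, mul_comm]
    exact Nat.mul_le_mul (Nat.pow_le_pow_left (Finset.card_le_univ _) r) hS2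
  set X := S ^ (r + 1) with hX
  set N := X / (4 * y) + 1 with hN
  have hN1 : 1 ≤ N := Nat.le_add_left 1 _
  have hXN : X ≤ 4 * y * N := by
    have h1 : 0 < 4 * y := by omega
    have := Nat.lt_mul_div_succ X h1
    rw [hN]
    exact this.le
  have hNX : 4 * y * (N - 1) ≤ X := by
    rw [hN, Nat.add_sub_cancel]
    exact Nat.mul_div_le _ _
  have hNK : N ≤ 2 ^ (r + 1) * K := by
    have h1 : 4 * K ^ r * (N - 1) ≤ 2 ^ (r + 1) * K * K ^ r := by
      calc 4 * K ^ r * (N - 1) ≤ 4 * y * (N - 1) := by gcongr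
        _ ≤ X := hNX
        _ ≤ (2 * K) ^ (r + 1) := Nat.pow_le_pow_left hSK _
        _ = 2 ^ (r + 1) * K * K ^ r := by rw [mul_pow, pow_succ K r]; ring
    have h2 : 0 < K ^ r := Nat.pow_pos hKpos
    have h3 : 4 * (N - 1) ≤ 2 ^ (r + 1) * K := by
      by_contra hcon
      rw [not_le] at hcon
      have h4 := Nat.mul_lt_mul_of_pos_right hcon h2
      have h5 : 4 * K ^ r * (N - 1) = 4 * (N - 1) * K ^ r := by ring
      omega
    have h6 : 2 ≤ 2 ^ (r + 1) * K := by
      have : 2 ≤ 2 ^ (r + 1) := by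
        calc 2 = 2 ^ 1 := by norm_num
          _ ≤ 2 ^ (r + 1) := Nat.pow_le_pow_right (by norm_num) (by omega)
      calc 2 = 2 * 1 := by norm_num
        _ ≤ 2 ^ (r + 1) * K := Nat.mul_le_mul this hKpos
    omega
  obtain ⟨ψ, hψ1, hψ2⟩ := exists_psi (r := r) (M := M) (N := N)
  obtain ⟨σ, A, hAcard, hA⟩ := flip_exists (beta r M i₀) φ hφinj N
  have hU : Fintype.card (Fin (r + 1) → {x // x ∈ Sub r M}) = X := by
    rw [Fintype.card_fun, Fintype.card_fin]
  refine ⟨Alph r M N, inferInstance, QQ r M N, fun c => ψ (vec c), err, N, ?_⟩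
  refine ⟨?_, err_nonneg, err_le, fun c c' h => hψ1 c c' h, ?_, ?_, ?_⟩
  · -- two_le
    rw [Fintype.card_fun, Fintype.card_fin]
    calc 2 ≤ S := hS2
      _ = S ^ 1 := (pow_one _).symm
      _ ≤ S ^ N := Nat.pow_le_pow_right (by omega) hN1
  · intro x hx y hy h
    exact err_compat hx hy (hψ2 x y h)
  · -- small
    have h1 := card_bad (r := r) (M := M) (N := N)
    rw [← hSdef, ← hb] at h1
    have h2 : Fintype.card (Alph r M N × Alph r M N) = S ^ 2 * (S ^ (N - 1)) ^ 2 := by
      rw [Fintype.card_prod, Fintype.card_fun, Fintype.card_fin, ← hSdef]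
      obtain ⟨n, hn⟩ : ∃ n, N = n + 1 := ⟨N - 1, by omega⟩
      rw [hn, Nat.add_sub_cancel]
      ring
    have h3 : N * (2 * b) * η ≤ S ^ 2 := by
      have h4 : 2 ^ (r + 2) * η * b ≤ K := le_trans (Nat.mul_le_mul_right _ (by omega)) hM
      calc N * (2 * b) * η ≤ 2 ^ (r + 1) * K * (2 * b) * η := by gcongr
        _ = K * (2 ^ (r + 2) * η * b) := by rw [pow_succ 2 (r + 1)]; ring
        _ ≤ K * K := Nat.mul_le_mul_left _ h4
        _ ≤ S * S := Nat.mul_le_mul hKS hKS
        _ = S ^ 2 := (sq S).symm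
    rw [h2] at h1 ⊢
    calc (S ^ 2 * (S ^ (N - 1)) ^ 2 - (QQ r M N).card) * η
        ≤ (N * (2 * (b * (S ^ (N - 1)) ^ 2))) * η := Nat.mul_le_mul_right _ h1
      _ = N * (2 * b) * η * (S ^ (N - 1)) ^ 2 := by ring
      _ ≤ S ^ 2 * (S ^ (N - 1)) ^ 2 := Nat.mul_le_mul_right _ h3
  · -- flip
    let Pm : (Fin (r + 1) → Alph r M N) ≃ (Fin N → Fin (r + 1) → {x // x ∈ Sub r M}) :=
      ⟨fun b t j => b j t, fun x j t => x t j, fun _ => rfl, fun _ => rfl⟩
    refine ⟨(Pm.trans σ).trans Pm.symm, A.map Pm.symm.toEmbedding, ?_, ?_⟩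
    · rw [Finset.card_map]
      have h1 : Fintype.card (Fin (r + 1) → Alph r M N) = X ^ N := by
        rw [Fintype.card_congr Pm, Fintype.card_fun, hU, Fintype.card_fin]
      have h2 := flip_count X y N hN1 hyS hXN hNX
      rw [hU] at hAcard
      change Fintype.card (Fin (r + 1) → Alph r M N) ≤ _
      rw [h1]
      exact h2.trans (Nat.mul_le_mul_left _ hAcard)
    · intro c hc
      rw [Finset.mem_map] at hc
      obtain ⟨x, hxA, hxc⟩ := hc
      obtain ⟨t, htβ, hσx⟩ := hA x hxA
      have hxc' : c = Pm.symm x := hxc.symm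
      refine ⟨ψ (Pi.single t (shiftVec i₀ (x t))), fun j => ?_⟩
      have h1 : ((Pm.trans σ).trans Pm.symm) c j = fun t' => (Function.update x t (φ (x t))) t' j := by
        rw [hxc']
        change (Pm.symm (σ (Pm (Pm.symm x)))) j = _
        rw [Equiv.apply_symm_apply, hσx]
        rfl
      have h2 : c j = fun t' => x t' j := by rw [hxc']; rfl
      have h3 := hφ (x t) htβ
      rw [h1, h2]
      constructor
      · have h4 : vec (fun t' => (Function.update x t (φ (x t))) t' j : Alph r M N) =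
            vec (fun t' => x t' j : Alph r M N) + Pi.single t (shiftVec i₀ (x t)) := by
          funext t'
          change (Function.update x t (φ (x t)) t' j).1 =
            (x t' j).1 + (Pi.single t (shiftVec i₀ (x t)) : Fin N → Vec r) t'
          by_cases ht : t' = t
          · subst ht
            rw [Function.update_self, Pi.single_eq_same]
            exact h3 j
          · rw [Function.update_of_ne ht, Pi.single_eq_of_ne ht, add_zero]
        rw [h4, map_add]
      · unfold err
        have h5 : ∀ t', max ((Function.update x t (φ (x t)) t' j).1.2) 0 =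
            max ((x t' j).1.2) 0 - (if t' = t then (if j = i₀ then 1 else 0) else 0) := by
          intro t'
          by_cases ht : t' = t
          · subst ht
            rw [Function.update_self, if_pos rfl, h3 j]
            rw [mem_beta] at htβ
            by_cases hj : j = i₀
            · rw [if_pos hj, hj, htβ.1]
              simp [star, shiftVec]
            · rw [if_neg hj]
              have h6 := htβ.2 j hj
              simp [Prod.snd_add, shiftVec, h6]
          · rw [Function.update_of_ne ht, if_neg ht, sub_zero]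
        simp_rw [h5]
        rw [Finset.sum_sub_distrib, Finset.sum_ite_eq' Finset.univ t]
        simp

theorem conclusion : Conclusion := main_of_blocks block_exists

end Pool.Agent.MP335725
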